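import Pool.Agent.Work.MP_254e61_co.FC.Moves

set_option autoImplicit false

/-!
Module Centroid.  Change of the root.

(1) `(tets p s x).length = x.size`; `x.mir.size = x.size`; `(tets p s.flip x.mir).Perm (tets p s x)` by induction on
`x`, general in `s` (`flip_L`, `flip_R`, `tet_flip`, `List.perm_append_comm`).
(2) Rotation: `(rt p s.rot r u l).Perm (rt p s u l r)`: `rot_U : s.rot.U = s.R`, `rot_L : s.rot.L = s.U`,
`rot_R : s.rot.R = s.L`, `tet_rot`.
(3) Reflection: `(rt p s.flip u.mir r.mir l.mir).Perm (rt p s u l r)`: `flip_U`, `flip_L`, `flip_R`, (1).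
(4) Change of root: `(rt p s.U (Bt.node l r) x y).Perm (rt p s (Bt.node x y) l r)`: both lists consist of `s.tet p`,
`s.U.tet p`, `tets p s.U.L x`, `tets p s.U.R y`, `tets p s.L l`, `tets p s.R r` (`UU`).
(5) Lemma: for every rooted shape with `u.size + l.size + r.size = 20` there is a rooted shape (regular
state, permuted list, the same sum of sizes) with all three sizes at most `10`.  Strong induction on the
greatest of the three sizes (or on any bound `N`: all sizes `≤ N`; if `N ≤ 10` done).  If one of the sizes is
`≥ 11`, rotate it to the first place (the other two are `≤ 9`), `u = node x y`; by (4) the new sizes are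
`l.size + r.size + 1 = 21 - u.size ≤ 10`, `x.size`, `y.size ≤ u.size - 1`.
(6) Sort the sizes by rotations and reflections: the six orders.  With (2) and (3) all permutations of
the three branches (up to `mir`, which does not change sizes) are realised: first rotate the greatest
one to the first place, then reflect if necessary.
`Reg.rot`, `Reg.flip`, `Reg.U` keep the state regular.
-/

namespace Pool.Agent.Work.MP_254e61_co.FC

private theorem length_tets (p : E3) (x : Bt) : ∀ s : St, (tets p s x).length = x.size := by
  induction x with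
  | nil => intro s; rfl
  | node l r ihl ihr =>
    intro s
    simp only [tets, Bt.size, List.length_cons, List.length_append, ihl, ihr]

private theorem size_mir (x : Bt) : x.mir.size = x.size := by
  induction x with
  | nil => rfl
  | node l r ihl ihr =>
    simp only [Bt.mir, Bt.size, ihl, ihr]
    omega

private theorem tets_mir (p : E3) (x : Bt) : ∀ s : St,
    (tets p s.flip x.mir).Perm (tets p s x) := by
  induction x with
  | nil => intro s; exact List.Perm.refl _
  | node l r ihl ihr =>
    intro s
    simp only [tets, Bt.mir, tet_flip, flip_L, flip_R]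
    exact ((((ihr s.R).append (ihl s.L))).trans List.perm_append_comm).cons _

theorem length_rt (p : E3) (s : St) (u l r : Bt) :
    (rt p s u l r).length = u.size + l.size + r.size + 1 := by
  simp only [rt, List.length_cons, List.length_append, length_tets]

private theorem rt_rot (p : E3) (s : St) (u l r : Bt) :
    (rt p s.rot r u l).Perm (rt p s u l r) := by
  simp only [rt, tet_rot, rot_U, rot_L, rot_R]
  refine List.Perm.cons _ ?_
  rw [List.append_assoc]
  exact List.perm_append_comm

private theorem rt_flip (p : E3) (s : St) (u l r : Bt) :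
    (rt p s.flip u.mir r.mir l.mir).Perm (rt p s u l r) := by
  simp only [rt, tet_flip, flip_U, flip_L, flip_R]
  refine List.Perm.cons _ ?_
  rw [List.append_assoc, List.append_assoc]
  refine List.Perm.append (tets_mir p u s.U) ?_
  exact ((tets_mir p r s.R).append (tets_mir p l s.L)).trans List.perm_append_comm

private theorem rt_root (p : E3) (s : St) (x y l r : Bt) :
    (rt p s.U (.node l r) x y).Perm (rt p s (.node x y) l r) := by
  simp only [rt, tets, UU]
  have h1 : (s.U.tet p :: (s.tet p :: (tets p s.L l ++ tets p s.R r) ++ tets p s.U.L x ++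
      tets p s.U.R y)).Perm
      (s.tet p :: s.U.tet p :: (tets p s.L l ++ tets p s.R r ++ tets p s.U.L x ++
        tets p s.U.R y)) := by
    simp only [List.cons_append]
    exact List.Perm.swap _ _ _
  refine h1.trans ?_
  refine List.Perm.cons _ ?_
  simp only [List.cons_append]
  refine List.Perm.cons _ ?_
  rw [List.append_assoc, List.append_assoc (tets p s.U.L x ++ tets p s.U.R y)]
  exact List.perm_append_comm

/-- all branches at most ten -/
private def Good (e : ℝ) (p : E3) (Λ : List (Finset E3)) : Prop :=
  ∃ (s' : St) (u' l' r' : Bt), Reg e s' ∧ (rt p s' u' l' r').Perm Λ ∧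
      u'.size ≤ 10 ∧ l'.size ≤ 10 ∧ r'.size ≤ 10 ∧ u'.size + l'.size + r'.size = 20

private theorem good {e : ℝ} {p : E3} (N : ℕ) : ∀ {s : St} (_ : Reg e s) (u l r : Bt)
    (_ : u.size + l.size + r.size = 20) (_ : u.size ≤ N) (_ : l.size ≤ N) (_ : r.size ≤ N),
    Good e p (rt p s u l r) := by
  induction N with
  | zero => intro s hs u l r h1 h2 h3 h4; omega
  | succ N ih =>
    intro s hs u l r h1 h2 h3 h4
    -- the case of a large first branch
    have key : ∀ {s : St} (_ : Reg e s) (u l r : Bt) (_ : u.size + l.size + r.size = 20)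
        (_ : u.size ≤ N + 1) (_ : 11 ≤ u.size), Good e p (rt p s u l r) := by
      intro s hs u l r h1 h2 h3
      cases u with
      | nil => simp [Bt.size] at h3
      | node x y =>
        have hsz : (Bt.node x y).size = x.size + y.size + 1 := rfl
        rw [hsz] at h1 h2 h3
        obtain ⟨s', u', l', r', k1, k2, k3⟩ := ih (hs.U) (.node l r) x y
          (by simp only [Bt.size]; omega) (by simp only [Bt.size]; omega) (by omega) (by omega)
        exact ⟨s', u', l', r', k1, k2.trans (rt_root p s x y l r), k3⟩
    by_cases hu : u.size ≤ 10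
    · by_cases hl : l.size ≤ 10
      · by_cases hr : r.size ≤ 10
        · exact ⟨s, u, l, r, hs, List.Perm.refl _, hu, hl, hr, h1⟩
        · obtain ⟨s', u', l', r', k1, k2, k3⟩ := key hs.rot r u l (by omega) (by omega) (by omega)
          exact ⟨s', u', l', r', k1, k2.trans (rt_rot p s u l r), k3⟩
      · obtain ⟨s', u', l', r', k1, k2, k3⟩ := key hs.rot.rot l r u (by omega) (by omega) (by omega)
        exact ⟨s', u', l', r', k1,
          (k2.trans (rt_rot p s.rot r u l)).trans (rt_rot p s u l r), k3⟩
    · exact key hs u l r h1 h2 (by omega)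

theorem centroid {e : ℝ} {p : E3} {s : St} (hs : Reg e s) (u l r : Bt)
    (hsum : u.size + l.size + r.size = 20) :
    ∃ (s' : St) (u' l' r' : Bt), Reg e s' ∧ (rt p s' u' l' r').Perm (rt p s u l r) ∧
      u'.size ≤ 10 ∧ l'.size ≤ u'.size ∧ r'.size ≤ l'.size ∧ u'.size + l'.size + r'.size = 20 := by
  obtain ⟨t, x, y, z, ht, hp, hx, hy, hz, hs20⟩ :=
    good (p := p) 20 hs u l r hsum (by omega) (by omega) (by omega)
  -- put the greatest one first
  have first : ∃ (t : St) (x y z : Bt), Reg e t ∧ (rt p t x y z).Perm (rt p s u l r) ∧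
      x.size ≤ 10 ∧ y.size ≤ x.size ∧ z.size ≤ x.size ∧ x.size + y.size + z.size = 20 := by
    by_cases h1 : y.size ≤ x.size ∧ z.size ≤ x.size
    · exact ⟨t, x, y, z, ht, hp, hx, h1.1, h1.2, hs20⟩
    · by_cases h2 : x.size ≤ z.size ∧ y.size ≤ z.size
      · exact ⟨t.rot, z, x, y, ht.rot, (rt_rot p t x y z).trans hp, hz, h2.1, h2.2, by omega⟩
      · exact ⟨t.rot.rot, y, z, x, ht.rot.rot,
          ((rt_rot p t.rot z x y).trans (rt_rot p t x y z)).trans hp, hy, by omega, by omega,
          by omega⟩
  obtain ⟨t, x, y, z, ht, hp, hx, hy, hz, hs20⟩ := first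
  by_cases h : z.size ≤ y.size
  · exact ⟨t, x, y, z, ht, hp, hx, hy, h, hs20⟩
  · refine ⟨t.flip, x.mir, z.mir, y.mir, ht.flip, (rt_flip p t x y z).trans hp, ?_, ?_, ?_, ?_⟩ <;>
      simp only [size_mir] <;> omega

end Pool.Agent.Work.MP_254e61_co.FC
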