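import Pool.Agent.Work.MP_254e61_co.FC.Start

set_option autoImplicit false

/-!
Module ConnShape.  A shape is face-connected.

Let `F` be a set containing all members of the list.  Lemma: for regular `s` and every `B ∈ tets p s x`
there are chains from `s.tet p` to `B` and from `B` to `s.tet p` in `F` (relation
`fun A B => B ∈ F ∧ FaceAdj A B`), if `tets p s x ⊆ F`: induction on `x`; `B = s.tet p`: empty chain;
`B ∈ tets p s.L l`: then `l` is a node, its root tetrahedron `s.L.tet p` is in `F`; step by `faceAdj_L` and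
symmetry of `FaceAdj`, and the induction hypothesis.  The same for `rt`.
Then any two members are connected through the root.
-/

namespace Pool.Agent.Work.MP_254e61_co.FC

private theorem FaceAdj.symm' {A B : Finset E3} (h : FaceAdj A B) : FaceAdj B A := by
  obtain ⟨G, h1, h2, h3⟩ := h
  exact ⟨G, h1, h3, h2⟩

private theorem chain {e : ℝ} (p : E3) (F : Finset (Finset E3)) (x : Bt) : ∀ {s : St} (_ : Reg e s)
    (_ : ∀ B ∈ tets p s x, B ∈ F) (B : Finset E3) (_ : B ∈ tets p s x),
    Relation.ReflTransGen (fun A B => B ∈ F ∧ FaceAdj A B) (s.tet p) B ∧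
      Relation.ReflTransGen (fun A B => B ∈ F ∧ FaceAdj A B) B (s.tet p) := by
  induction x with
  | nil => intro s hs hF B hB; simp [tets] at hB
  | node l r ihl ihr =>
    intro s hs hF B hB
    simp only [tets, List.mem_cons, List.mem_append] at hB hF
    have hs0 : s.tet p ∈ F := hF _ (Or.inl rfl)
    rcases hB with hB | hB | hB
    · rw [hB]; exact ⟨.refl, .refl⟩
    · have hr : s.L.tet p ∈ F := by
        cases l with
        | nil => simp [tets] at hB
        | node y z => exact hF _ (Or.inr (Or.inl (by simp [tets])))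
      obtain ⟨c1, c2⟩ := ihl hs.L (fun C hC => hF C (Or.inr (Or.inl hC))) B hB
      exact ⟨.head ⟨hr, faceAdj_L hs p⟩ c1, .tail c2 ⟨hs0, FaceAdj.symm' (faceAdj_L hs p)⟩⟩
    · have hr : s.R.tet p ∈ F := by
        cases r with
        | nil => simp [tets] at hB
        | node y z => exact hF _ (Or.inr (Or.inr (by simp [tets])))
      obtain ⟨c1, c2⟩ := ihr hs.R (fun C hC => hF C (Or.inr (Or.inr hC))) B hB
      exact ⟨.head ⟨hr, faceAdj_R hs p⟩ c1, .tail c2 ⟨hs0, FaceAdj.symm' (faceAdj_R hs p)⟩⟩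

private theorem root_mem (p : E3) {s : St} {x : Bt} {B : Finset E3} (h : B ∈ tets p s x) :
    s.tet p ∈ tets p s x := by
  cases x with
  | nil => simp [tets] at h
  | node l r => simp [tets]

theorem conn_shape {e : ℝ} {s : St} (hs : Reg e s) (p : E3) (u l r : Bt) (F : Finset (Finset E3))
    (hF : ∀ B, B ∈ F ↔ B ∈ rt p s u l r) : FaceConn F := by
  have hroot : s.tet p ∈ F := (hF _).mpr (by simp [rt])
  have hU : ∀ B ∈ tets p s.U u, B ∈ F := fun B hB => (hF B).mpr (by simp [rt, hB])
  have hL : ∀ B ∈ tets p s.L l, B ∈ F := fun B hB => (hF B).mpr (by simp [rt, hB])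
  have hR : ∀ B ∈ tets p s.R r, B ∈ F := fun B hB => (hF B).mpr (by simp [rt, hB])
  have key : ∀ B ∈ F, Relation.ReflTransGen (fun A B => B ∈ F ∧ FaceAdj A B) (s.tet p) B ∧
      Relation.ReflTransGen (fun A B => B ∈ F ∧ FaceAdj A B) B (s.tet p) := by
    intro B hB
    have hB' := (hF B).mp hB
    simp only [rt, List.mem_cons, List.mem_append] at hB'
    rcases hB' with h | (h | h) | h
    · rw [h]; exact ⟨.refl, .refl⟩
    · obtain ⟨c1, c2⟩ := chain p F u hs.U hU B h
      exact ⟨.head ⟨hU _ (root_mem p h), faceAdj_U hs p⟩ c1,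
        .tail c2 ⟨hroot, FaceAdj.symm' (faceAdj_U hs p)⟩⟩
    · obtain ⟨c1, c2⟩ := chain p F l hs.L hL B h
      exact ⟨.head ⟨hL _ (root_mem p h), faceAdj_L hs p⟩ c1,
        .tail c2 ⟨hroot, FaceAdj.symm' (faceAdj_L hs p)⟩⟩
    · obtain ⟨c1, c2⟩ := chain p F r hs.R hR B h
      exact ⟨.head ⟨hR _ (root_mem p h), faceAdj_R hs p⟩ c1,
        .tail c2 ⟨hroot, FaceAdj.symm' (faceAdj_R hs p)⟩⟩
  intro S hS T hT
  exact (key S hS).2.trans (key T hT).1

end Pool.Agent.Work.MP_254e61_co.FC
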