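import Pool.Agent.Work.MP_254e61_co.FC.ExDefs

set_option autoImplicit false
set_option maxRecDepth 100000

namespace Pool.Agent.Work.MP_254e61_co.FC

def ex0 : Bt := (Bt.node (Bt.node Bt.nil Bt.nil) Bt.nil)

def ex1 : Bt := (Bt.node (Bt.node (Bt.node Bt.nil (Bt.node (Bt.node Bt.nil Bt.nil) Bt.nil)) (Bt.node (Bt.node Bt.nil Bt.nil) Bt.nil)) (Bt.node (Bt.node Bt.nil (Bt.node (Bt.node Bt.nil Bt.nil) Bt.nil)) Bt.nil))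

def ex2 : Bt := (Bt.node (Bt.node Bt.nil Bt.nil) (Bt.node (Bt.node (Bt.node Bt.nil Bt.nil) (Bt.node Bt.nil Bt.nil)) Bt.nil))

def exC : List (List (ℤ × ℤ × ℤ)) := [[(0, 0, 1), (0, 0, 1), (0, 1, 0), (0, 1, 0), (0, 0, 1), (0, 0, 1), (0, 0, 1), (0, 1, 0), (0, 1, 0), (0, 1, 0), (0, 1, 0), (0, 1, 0), (0, 1, 0), (1, 0, 0), (1, 0, 0), (1, 0, 0), (1, 0, 0), (1, 0, 0), (1, 0, 0)],
  [(3, 0, 2), (0, 1, 0), (0, 1, -1), (0, 3, 2), (1, 2, 2), (1, 2, 2), (0, 1, -1), (0, 1, 0), (1, 0, -1), (1, 0, -1), (0, 0, -1), (0, 1, 0), (1, 0, 0), (0, 1, -1), (1, 0, -1), (1, 0, -1), (0, 0, -1), (1, 0, 0)],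
  [(0, 1, 0), (-1, 0, -1), (-1, 1, 0), (-1, 1, 0), (1, 2, 2), (-1, 0, -1), (-1, 1, 0), (1, 0, -1), (1, 0, -1), (0, 0, -1), (0, 1, 0), (0, 0, -1), (0, 0, -1), (1, 0, -1), (1, 0, -1), (0, 0, -1), (2, 1, 0)],
  [(0, 2, 3), (0, 0, 1), (0, 0, 1), (0, -1, 1), (1, 2, 2), (1, 1, 1), (3, 2, 0), (2, 2, 1), (1, 1, 1), (1, 1, 1), (0, -1, 0), (1, -1, 0), (0, -1, 1), (0, -1, 1), (1, -1, 0), (0, -1, 0)],
  [(0, -5, 6), (1, 0, 2), (0, -1, 1), (9, 10, 6), (9, 10, 6), (1, 0, -1), (1, 0, -1), (1, 0, -1), (2, 1, 0), (1, 0, -1), (0, -1, -1), (1, 0, -1), (0, -1, 1), (0, -1, -1), (0, -1, 0)],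
  [(27, 20, 30), (27, 20, 30), (0, 5, -6), (27, 20, 30), (0, 0, -1), (0, 0, -1), (0, 0, -1), (1, 1, 0), (1, 0, 0), (0, -1, -1), (0, -1, -1), (0, -1, -1), (0, -1, -1), (1, -1, 0)],
  [(54, -44, 15), (-1, 0, -2), (45, 80, -6), (0, 0, -1), (0, 0, -1), (0, 0, -1), (1, 1, 0), (1, 0, 0), (0, -1, -1), (0, -1, -1), (0, -1, -1), (0, -1, -1), (1, -1, 0)],
  [(-1, 0, -1), (1, 2, 0), (-1, 0, -1), (-1, 0, -1), (0, 0, -1), (1, 1, 0), (0, 0, -1), (0, 0, -1), (1, 0, -1), (1, 0, -1), (0, 0, -1), (2, 1, 0)],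
  [(18, 5, 30), (1, 0, -1), (1, 0, -1), (1, 0, -1), (30, 7, 30), (1, 0, -1), (0, -1, -1), (1, 0, -1), (0, -1, -1), (0, -1, -1), (0, -1, 0)],
  [(1, 0, -1), (1, 0, -1), (1, 0, -1), (90, 16, 15), (1, 0, 0), (0, -1, -1), (0, -1, -1), (0, -1, -1), (0, -1, -1), (0, -1, 0)],
  [(6, 10, 9), (6, 10, 9), (1, 1, 2), (0, -1, 0), (1, -1, 0), (0, -1, 0), (0, -1, 0), (1, -1, 0), (0, -1, 0)],
  [(30, 5, 18), (30, 5, 18), (0, -1, 0), (1, -1, 0), (0, -1, 0), (0, -1, 0), (1, -1, 0), (0, -1, 0)],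
  [(15, 16, 90), (-1, -1, -1), (0, -2, -1), (0, -1, 0), (0, -1, 0), (6, -80, -45), (0, -1, 0)],
  [(-1, -1, -1), (-2, -1, -2), (0, -1, 0), (0, -1, 0), (0, -3, -2), (0, -1, 0)],
  [(2, 3, 0), (2, 0, 3), (2, 1, 2), (2, 2, 1), (1, 1, 1)],
  [(0, -1, 1), (0, -1, 1), (10, 6, 9), (0, -1, 1)],
  [(10, 9, 6), (2, 2, 1), (10, 9, 6)],
  [(2, 18, -15), (5, 18, 30)],
  [(-2, -18, 15)],
  []]

theorem ex_sep : sepAll (irt I0 ex0 ex1 ex2) exC = true := by decide +kernel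

theorem ex_size : ex0.size + ex1.size + ex2.size = 19 := by decide

end Pool.Agent.Work.MP_254e61_co.FC
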