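import Pool.Agent.Work.MP_254e61_co.FC.Basis

set_option autoImplicit false

/-!
Module IntHull.  Interior points of the tetrahedron.

Let `P : Fin 4 → E3` be `![p, p + s.a, p + s.b, p + s.c]`.  It is affinely independent
(`affineIndependent_iff_linearIndependent_vsub ℝ P 0`, with `lin_indep`) and spans
(`AffineIndependent.affineSpan_eq_top_iff_card_eq_finrank_add_one`, `finrank_euclideanSpace`), so it is an
`AffineBasis (Fin 4) ℝ E3`; `AffineBasis.interior_convexHull` says that the interior of the convex hull of
the range is the set of the points with positive barycentric coordinates; the coordinates of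
`p + s.lc x y z` are `1 - x - y - z, x, y, z` (`AffineBasis.coord_apply_combination_of_mem` or: write
the point as an affine combination).  The range is the set of the four vertices.
Other way, without affine bases: the map `(x,y,z) ↦ p + s.lc x y z` is a linear isomorphism
`ℝ × ℝ × ℝ → E3` plus a translation, hence open, and maps the open set `x, y, z > 0`, `x + y + z < 1`
into the convex hull (an explicit convex combination of the four vertices); the image is an open
subset of the hull, so it lies in the interior.
-/

namespace Pool.Agent.Work.MP_254e61_co.FC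

theorem mem_interior {e : ℝ} {s : St} (hs : Reg e s) (p : E3) {x y z : ℝ} (hx : 0 < x) (hy : 0 < y)
    (hz : 0 < z) (h : x + y + z < 1) : p + s.lc x y z ∈ interior (hull (s.tet p)) := by
  have hcard : Fintype.card (Fin 3) = Module.finrank ℝ E3 := by simp
  let B := basisOfLinearIndependentOfCardEqFinrank (lin_indep hs) hcard
  have hB : ∀ i, B i = ![s.a, s.b, s.c] i := fun i => by simp [B]
  have hB0 : B 0 = s.a := by rw [hB]; rfl
  have hB1 : B 1 = s.b := by rw [hB]; rfl
  have hB2 : B 2 = s.c := by rw [hB]; rfl
  let f : Fin 3 → E3 → ℝ := fun i v => B.coord i (v - p)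
  have hf : ∀ i, Continuous (f i) := fun i =>
    (LinearMap.continuous_of_finiteDimensional (B.coord i)).comp
      (continuous_id.sub continuous_const)
  have hlc : ∀ i, f i (p + s.lc x y z) = ![x, y, z] i := by
    intro i
    have h1 : p + s.lc x y z - p = x • B 0 + y • B 1 + z • B 2 := by
      rw [hB0, hB1, hB2]; unfold St.lc; simp
    show B.coord i (p + s.lc x y z - p) = _
    rw [h1]
    fin_cases i <;> simp
  refine _root_.mem_interior.mpr ⟨{v | (0 < f 0 v ∧ 0 < f 1 v) ∧ (0 < f 2 v ∧
    f 0 v + f 1 v + f 2 v < 1)}, ?_, ?_, ?_⟩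
  · rintro v ⟨⟨h0, h1⟩, h2, h3⟩
    have hv : v - p = f 0 v • s.a + f 1 v • s.b + f 2 v • s.c := by
      have := B.sum_repr (v - p)
      rw [Fin.sum_univ_three, hB0, hB1, hB2] at this
      exact this.symm
    have hv' : v = ∑ i : Fin 4, (![1 - f 0 v - f 1 v - f 2 v, f 0 v, f 1 v, f 2 v] : Fin 4 → ℝ) i •
        (![p, p + s.a, p + s.b, p + s.c] : Fin 4 → E3) i := by
      rw [Fin.sum_univ_four]
      change v = (1 - f 0 v - f 1 v - f 2 v) • p + f 0 v • (p + s.a) + f 1 v • (p + s.b) +
        f 2 v • (p + s.c)
      have e : v = p + (v - p) := by abel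
      conv_lhs => rw [e, hv]
      module
    rw [hv']
    refine (convex_convexHull ℝ _).sum_mem ?_ ?_ ?_
    · intro i _
      fin_cases i
      · show 0 ≤ 1 - f 0 v - f 1 v - f 2 v
        linarith
      · exact h0.le
      · exact h1.le
      · exact h2.le
    · rw [Fin.sum_univ_four]
      show 1 - f 0 v - f 1 v - f 2 v + f 0 v + f 1 v + f 2 v = 1
      ring
    · intro i _
      refine subset_convexHull ℝ _ ?_
      show _ ∈ (s.tet p : Set E3)
      rw [Finset.mem_coe, mem_tet]
      fin_cases i
      · exact Or.inl rfl
      · exact Or.inr (Or.inl rfl)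
      · exact Or.inr (Or.inr (Or.inl rfl))
      · exact Or.inr (Or.inr (Or.inr rfl))
  · exact ((isOpen_lt continuous_const (hf 0)).inter (isOpen_lt continuous_const (hf 1))).inter
      ((isOpen_lt continuous_const (hf 2)).inter
        (isOpen_lt (((hf 0).add (hf 1)).add (hf 2)) continuous_const))
  · refine ⟨⟨?_, ?_⟩, ?_, ?_⟩
    · rw [hlc 0]; exact hx
    · rw [hlc 1]; exact hy
    · rw [hlc 2]; exact hz
    · rw [hlc 0, hlc 1, hlc 2]; exact h

end Pool.Agent.Work.MP_254e61_co.FC
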