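import Pool.Agent.Work.MP_254e61_co.FC.SepAll
import Pool.Agent.Work.MP_254e61_co.FC.ConnShape
import Pool.Agent.Work.MP_254e61_co.FC.IntHull
import Pool.Agent.Work.MP_254e61_co.FC.Centroid
import Pool.Agent.Work.MP_254e61_co.FC.ExK

set_option autoImplicit false

/-!
Module Lower.  Existence.  Take `s` from `exists_reg`, `Λ = rt p s ex0 ex1 ex2`; `Λ.Pairwise Dj` by `sep_all`, `ex_sep`.
Every member of `Λ` is `τ.tet p` with `τ` regular (induction; lemma), so it is a tetrahedron
(`isTet_of_reg`) and `¬ Dj T T` (`mem_interior` with `x = y = z = 1/4`: the interior is not empty).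
Hence `Λ` is without repetitions (`List.Pairwise.imp`: `Dj A B → A ≠ B`), and `F = Λ.toFinset` has
`card = Λ.length = 20` (`length_rt`, `ex_size`).  `FaceConn F` by `conn_shape`.
For `S ≠ T` in `F`: `Dj S T` from the pairwise condition and symmetry (`List.Pairwise.forall_of_forall`,
or `List.pairwise_iff_getElem`).
-/

namespace Pool.Agent.Work.MP_254e61_co.FC

private theorem mem_tets {e : ℝ} (p : E3) (x : Bt) : ∀ {s : St} (_ : Reg e s) {B : Finset E3}
    (_ : B ∈ tets p s x), ∃ τ : St, Reg e τ ∧ B = τ.tet p := by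
  induction x with
  | nil => intro s hs B hB; simp [tets] at hB
  | node l r ihl ihr =>
    intro s hs B hB
    simp only [tets, List.mem_cons, List.mem_append] at hB
    rcases hB with hB | hB | hB
    · exact ⟨s, hs, hB⟩
    · exact ihl hs.L hB
    · exact ihr hs.R hB

private theorem mem_rt {e : ℝ} (p : E3) (u l r : Bt) {s : St} (hs : Reg e s) {B : Finset E3}
    (hB : B ∈ rt p s u l r) : ∃ τ : St, Reg e τ ∧ B = τ.tet p := by
  simp only [rt, List.mem_cons, List.mem_append] at hB
  rcases hB with hB | (hB | hB) | hB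
  · exact ⟨s, hs, hB⟩
  · exact mem_tets p u hs.U hB
  · exact mem_tets p l hs.L hB
  · exact mem_tets p r hs.R hB

private theorem not_self {e : ℝ} (p : E3) {τ : St} (hτ : Reg e τ) :
    ¬ Dj (τ.tet p) (τ.tet p) := by
  intro h
  have hm := mem_interior hτ p (x := 1 / 4) (y := 1 / 4) (z := 1 / 4) (by norm_num) (by norm_num)
    (by norm_num) (by norm_num)
  exact Set.disjoint_left.mp h hm hm

theorem lower (e : ℝ) (he : 0 < e) (p : E3) :
    ∃ F : Finset (Finset E3), IsFamily e p F ∧ FaceConn F ∧ F.card = 20 := by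
  classical
  obtain ⟨s, hs⟩ := exists_reg he
  have hpw := sep_all hs p ex0 ex1 ex2 exC ex_sep
  have hnd : (rt p s ex0 ex1 ex2).Nodup := by
    refine List.Pairwise.imp_of_mem ?_ hpw
    intro a b ha hb hab heq
    subst heq
    obtain ⟨τ, hτ, rfl⟩ := mem_rt p ex0 ex1 ex2 hs ha
    exact not_self p hτ hab
  refine ⟨(rt p s ex0 ex1 ex2).toFinset, ⟨?_, ?_⟩, ?_, ?_⟩
  · intro S hS
    obtain ⟨τ, hτ, rfl⟩ := mem_rt p ex0 ex1 ex2 hs (List.mem_toFinset.mp hS)
    exact isTet_of_reg hτ p
  · intro S hS T hT hne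
    have : Std.Symm Dj := ⟨fun _ _ h => Disjoint.symm h⟩
    exact hpw.forall (List.mem_toFinset.mp hS) (List.mem_toFinset.mp hT) hne
  · exact conn_shape hs p ex0 ex1 ex2 _ (fun B => List.mem_toFinset)
  · rw [List.toFinset_card_of_nodup hnd, length_rt]
    have := ex_size
    omega

end Pool.Agent.Work.MP_254e61_co.FC
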