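import Pool.Agent.Work.MP_254e61_co.FC.Moves

set_option autoImplicit false

/-!
Module Basis.  A regular triple is a basis.

(1) `inner ℝ s.a (s.lc x y z) = e^2 (x + y/2 + z/2)` and similarly for `b`, `c` (bilinearity).
(2) Injectivity: if `s.lc x y z = 0` then the three inner products vanish, so (`e ≠ 0`)
`x + y/2 + z/2 = x/2 + y + z/2 = x/2 + y/2 + z = 0`, hence `x = y = z = 0`.
(3) So `![s.a, s.b, s.c]` is linearly independent (`Fintype.linearIndependent_iff`, `Fin.sum_univ_three`) and,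
since `Module.finrank ℝ E3 = 3` (`finrank_euclideanSpace`), it spans:
`basisOfLinearIndependentOfCardEqFinrank`; expand `v` in this basis (`Basis.sum_repr`).
-/

namespace Pool.Agent.Work.MP_254e61_co.FC

private theorem inner_a {e : ℝ} {s : St} (hs : Reg e s) (x y z : ℝ) :
    inner ℝ s.a (s.lc x y z) = e ^ 2 * (x + y / 2 + z / 2) := by
  obtain ⟨h0, h1, h2, h3, h4, h5, h6⟩ := hs
  unfold St.lc
  simp only [inner_add_right, inner_smul_right, h1, h4, h5]
  ring

private theorem inner_b {e : ℝ} {s : St} (hs : Reg e s) (x y z : ℝ) :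
    inner ℝ s.b (s.lc x y z) = e ^ 2 * (x / 2 + y + z / 2) := by
  obtain ⟨h0, h1, h2, h3, h4, h5, h6⟩ := hs
  have h4' : inner ℝ s.b s.a = e ^ 2 / 2 := by rw [← h4]; exact real_inner_comm _ _
  unfold St.lc
  simp only [inner_add_right, inner_smul_right, h2, h4', h6]
  ring

private theorem inner_c {e : ℝ} {s : St} (hs : Reg e s) (x y z : ℝ) :
    inner ℝ s.c (s.lc x y z) = e ^ 2 * (x / 2 + y / 2 + z) := by
  obtain ⟨h0, h1, h2, h3, h4, h5, h6⟩ := hs
  have h5' : inner ℝ s.c s.a = e ^ 2 / 2 := by rw [← h5]; exact real_inner_comm _ _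
  have h6' : inner ℝ s.c s.b = e ^ 2 / 2 := by rw [← h6]; exact real_inner_comm _ _
  unfold St.lc
  simp only [inner_add_right, inner_smul_right, h3, h5', h6']
  ring

theorem lc_inj {e : ℝ} {s : St} (hs : Reg e s) {x y z x' y' z' : ℝ}
    (h : s.lc x y z = s.lc x' y' z') : x = x' ∧ y = y' ∧ z = z' := by
  have he : 0 < e ^ 2 := pow_pos hs.1 2
  have ha := inner_a hs x y z
  rw [h, inner_a hs] at ha
  have hb := inner_b hs x y z
  rw [h, inner_b hs] at hb
  have hc := inner_c hs x y z
  rw [h, inner_c hs] at hc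
  have ha' := mul_left_cancel₀ he.ne' ha
  have hb' := mul_left_cancel₀ he.ne' hb
  have hc' := mul_left_cancel₀ he.ne' hc
  refine ⟨by linarith, by linarith, by linarith⟩

theorem lin_indep {e : ℝ} {s : St} (hs : Reg e s) : LinearIndependent ℝ ![s.a, s.b, s.c] := by
  rw [Fintype.linearIndependent_iff]
  intro g hg
  rw [Fin.sum_univ_three] at hg
  change g 0 • s.a + g 1 • s.b + g 2 • s.c = 0 at hg
  have h : s.lc (g 0) (g 1) (g 2) = s.lc 0 0 0 := by
    unfold St.lc
    rw [hg]
    simp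
  obtain ⟨h0, h1, h2⟩ := lc_inj hs h
  intro i
  fin_cases i
  · exact h0
  · exact h1
  · exact h2

theorem lc_surj {e : ℝ} {s : St} (hs : Reg e s) (v : E3) : ∃ x y z : ℝ, v = s.lc x y z := by
  have hcard : Fintype.card (Fin 3) = Module.finrank ℝ E3 := by simp
  let B := basisOfLinearIndependentOfCardEqFinrank (lin_indep hs) hcard
  have hB : ∀ i, B i = ![s.a, s.b, s.c] i := fun i => by
    simp [B]
  refine ⟨B.repr v 0, B.repr v 1, B.repr v 2, ?_⟩
  have := B.sum_repr v
  rw [Fin.sum_univ_three, hB, hB, hB] at this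
  exact this.symm

end Pool.Agent.Work.MP_254e61_co.FC
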