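import Pool.Agent.Work.MP_254e61_co.FC.Sem

set_option autoImplicit false

/-!
Module CheckSound.  Soundness of the search, pure combinatorics (no prescribed decisions).

Unfolding of `T`, `check` is by `rfl`; `force x F = F x` (cases on `x`).
(1) If `T cap kf t s S [] k = true` then `k s S [] = true` (all `t`, `s`, `S`): nil by definition, stop
is `false = true`, node: both cases of `Nat.beq (Nat.land S m) 0` give it.
(2) Lemma.  Let `F : ℕ → ℕ → Prop` with `(∀ s S, k s S [] = true → F s S)` and
`(∀ S, kf cap S [] = true → F cap S)`.  If `T cap kf t s S [] k = true`, `ok t x S`,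
`s + x.size ≤ cap` then `F (s + x.size) (upd t x S)`.  Induction on `t`, general in `s S k F x`.
`x = nil`: by (1) (`upd t nil S = S`).  `x = node y z`: `t = nil`: `ok` is `False`; `t = stop`: `T` is `false`;
`t = node m q l r`: `ok` says `Nat.land S m = 0`, so with `S1 = Nat.xor S q`, `s1 = s + 1` the include
part is `true`.  If `cap ≤ s1`: then `cap = s1` and `y.size = z.size = 0`, so `y = z = nil`, and the
include part is `kf cap S1 [] = true`; `F cap S1`.  Otherwise `T cap kf l s1 S1 [] k1 = true` with
`k1 = fun s2 S2 q2 => T cap kf r s2 S2 q2 k`.  Induction hypothesis for `l`, `k1` and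
`F1 s2 S2 := ok r z S2 → s2 + z.size ≤ cap → F (s2 + z.size) (upd r z S2)`
(first hypothesis: induction hypothesis for `r`, `k`, `F`; second: `z.size = 0`, so `z = nil`, and
`F cap S` from `kf cap S [] = true`).  Sizes: `x.size = y.size + z.size + 1`.
(3) `check_sound` by induction on `ts`, general in `cap rem S xs`: `[]`: `xs = []`, the sum is `0 = rem`,
`Nat.ble 1 0 = false`.  `t :: rest`, `x :: xs`: if `cap * (rest.length + 1) + 1 ≤ rem` then the sum of the
sizes is at most `cap * (rest.length + 1)` (by `dec`; lemma by induction, the length of `xs` is that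
of `rest` by `okL`), contradiction.  Otherwise `T (cap or rem) kf t 0 S [] kf = true` with
`kf = fun s S' q' => check rest s (rem - s) S' q'`; lemma (2) with
`F s S' := check rest s (rem - s) S' [] = true` (`x.size ≤ cap` by `dec` and `x.size ≤ rem` by the
sum), and the induction hypothesis with `cap := x.size`.
-/

namespace Pool.Agent.Work.MP_254e61_co.FC

private theorem force_eq (x : ℕ) (F : ℕ → Bool) : force x F = F x := by cases x <;> rfl

private noncomputable def Inc (cap : ℕ) (kf : ℕ → ℕ → List Bool → Bool) (l r : Tr) (p s S : ℕ)
    (k : ℕ → ℕ → List Bool → Bool) (q : List Bool) : Bool :=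
  Bool.rec (T cap kf l (s + 1) (Nat.xor S p) q (fun s'' S'' q'' => T cap kf r s'' S'' q'' k))
    (kf (s + 1) (Nat.xor S p) q) (Nat.ble cap (s + 1))

private theorem T_conf {cap : ℕ} {kf : ℕ → ℕ → List Bool → Bool} {l r : Tr} {m p s S : ℕ}
    {k : ℕ → ℕ → List Bool → Bool} (q : List Bool) (h : Nat.beq (Nat.land S m) 0 = false) :
    T cap kf (.node m p l r) s S q k = k s S q := by
  show @Bool.rec (fun _ => Bool) _ _ (Nat.beq (Nat.land S m) 0) = _
  rw [h]

private theorem T_nil {cap : ℕ} {kf : ℕ → ℕ → List Bool → Bool} {l r : Tr} {m p s S : ℕ}
    {k : ℕ → ℕ → List Bool → Bool} (h : Nat.beq (Nat.land S m) 0 = true) :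
    T cap kf (.node m p l r) s S [] k = (k s S [] && Inc cap kf l r p s S k []) := by
  show @Bool.rec (fun _ => Bool) _ _ (Nat.beq (Nat.land S m) 0) = _
  rw [h]
  show @Bool.rec (fun _ => Bool) false _ (k s S []) = _
  cases hk : k s S []
  · rfl
  · show force (Nat.xor S p) _ = _
    rw [force_eq, force_eq]
    rfl

private theorem T_k {cap : ℕ} {kf : ℕ → ℕ → List Bool → Bool} (t : Tr) {s S : ℕ}
    {k : ℕ → ℕ → List Bool → Bool} (h : T cap kf t s S [] k = true) : k s S [] = true := by
  cases t with
  | nil => exact h
  | stop => exact absurd h (by show ¬ (false = true); simp)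
  | node m p l r =>
    cases hb : Nat.beq (Nat.land S m) 0
    · rw [T_conf _ hb] at h; exact h
    · rw [T_nil hb] at h
      exact (Bool.and_eq_true_iff.mp h).1

private theorem size_zero {x : Bt} (h : x.size = 0) : x = .nil := by
  cases x with
  | nil => rfl
  | node l r => simp [Bt.size] at h

private theorem upd_nil (t : Tr) (S : ℕ) : upd t .nil S = S := by
  cases t <;> rfl

private theorem T_sound {cap : ℕ} {kf : ℕ → ℕ → List Bool → Bool} (t : Tr) :
    ∀ (s S : ℕ) (k : ℕ → ℕ → List Bool → Bool) (F : ℕ → ℕ → Prop),
      (∀ s S, k s S [] = true → F s S) → (∀ S, kf cap S [] = true → F cap S) →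
      T cap kf t s S [] k = true → ∀ x, ok t x S → s + x.size ≤ cap →
      F (s + x.size) (upd t x S) := by
  induction t with
  | nil =>
    intro s S k F hF hc h x hx hs
    cases x with
    | nil => simpa [Bt.size, upd_nil] using hF _ _ h
    | node y z => exact absurd hx (by simp [ok])
  | stop =>
    intro s S k F hF hc h x hx hs
    exact absurd h (by show ¬ (false = true); simp)
  | node m p l r ihl ihr =>
    intro s S k F hF hc h x hx hs
    cases x with
    | nil =>
      have := hF _ _ (T_k _ h)
      simpa [Bt.size, upd_nil] using this
    | node y z =>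
      obtain ⟨hm, hy, hz⟩ := hx
      have hb : Nat.beq (Nat.land S m) 0 = true := by rw [hm]; rfl
      rw [T_nil hb] at h
      have hi := (Bool.and_eq_true_iff.mp h).2
      have hsz : (Bt.node y z).size = y.size + z.size + 1 := rfl
      rw [hsz] at hs ⊢
      show F _ (upd r z (upd l y (Nat.xor S p)))
      unfold Inc at hi
      cases hcap : Nat.ble cap (s + 1)
      · rw [hcap] at hi
        have := ihl (s + 1) (Nat.xor S p) _
          (fun s2 S2 => ok r z S2 → s2 + z.size ≤ cap → F (s2 + z.size) (upd r z S2))
          (fun s2 S2 h2 hz' hs' => ihr s2 S2 k F hF hc h2 z hz' hs')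
          (fun S2 h2 hz' hs' => by
            have h0 : z.size = 0 := by omega
            have hzn := size_zero h0
            subst hzn
            simpa [Bt.size, upd_nil] using hc S2 h2) hi y hy (by omega) hz (by omega)
        have e : s + 1 + y.size + z.size = s + (y.size + z.size + 1) := by omega
        rw [e] at this
        exact this
      · rw [hcap] at hi
        have hle : cap ≤ s + 1 := Nat.le_of_ble_eq_true hcap
        have hy0 : y.size = 0 := by omega
        have hz0 : z.size = 0 := by omega
        have hyn := size_zero hy0
        have hzn := size_zero hz0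
        subst hyn hzn
        have hcs : cap = s + 1 := by simp [Bt.size] at hs; omega
        simp only [Bt.size, upd_nil, Nat.zero_add]
        rw [← hcs]
        apply hc
        rw [hcs]
        exact hi

private theorem check_cons (t : Tr) (ts : List Tr) (cap rem S : ℕ) (q : List Bool) :
    check (t :: ts) cap rem S q =
      Bool.rec
        (Bool.rec
          (T rem (fun s S' q' => check ts s (rem - s) S' q') t 0 S q
            (fun s S' q' => check ts s (rem - s) S' q'))
          (T cap (fun s S' q' => check ts s (rem - s) S' q') t 0 S q
            (fun s S' q' => check ts s (rem - s) S' q')) (Nat.ble cap rem)) true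
        (Nat.ble (Nat.succ (Nat.mul cap (Nat.succ (List.length ts)))) rem) := by
  have hk : (fun (s S' : ℕ) (q' : List Bool) => force (Nat.sub rem s) fun rem' =>
      check ts s rem' S' q') = (fun s S' q' => check ts s (rem - s) S' q') := by
    funext s S' q'
    rw [force_eq]
    rfl
  rw [← hk]
  rfl

private theorem sum_le : ∀ (xs : List Bt) (cap : ℕ), dec cap xs →
    (xs.map Bt.size).sum ≤ cap * xs.length
  | [], cap, _ => by simp
  | x :: xs, cap, h => by
    have := sum_le xs x.size h.2
    have h1 := h.1
    simp only [List.map_cons, List.sum_cons, List.length_cons]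
    have : (xs.map Bt.size).sum ≤ cap * xs.length :=
      this.trans (Nat.mul_le_mul_right _ h1)
    rw [Nat.mul_succ]
    omega

private theorem okL_length : ∀ (ts : List Tr) (xs : List Bt) (S : ℕ), okL ts xs S →
    xs.length = ts.length
  | [], [], _, _ => rfl
  | t :: ts, x :: xs, S, h => by
    simp only [List.length_cons]
    rw [okL_length ts xs _ h.2]
  | [], _ :: _, _, h => h.elim
  | _ :: _, [], _, h => h.elim

theorem check_sound (ts : List Tr) (cap rem S : ℕ) (h : check ts cap rem S [] = true)
    (xs : List Bt) (hok : okL ts xs S) (hd : dec cap xs) (hsum : (xs.map Bt.size).sum = rem) :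
    False := by
  induction ts generalizing cap rem S xs with
  | nil =>
    cases xs with
    | nil =>
      simp at hsum
      subst hsum
      exact absurd h (by show ¬ (Nat.ble 1 0 = true); decide)
    | cons x xs => exact hok
  | cons t ts ih =>
    cases xs with
    | nil => exact hok
    | cons x xs =>
      obtain ⟨hx, hxs⟩ := hok
      have hlen := okL_length ts xs _ hxs
      have hle := sum_le (x :: xs) cap hd
      obtain ⟨hd1, hd2⟩ := hd
      simp only [List.map_cons, List.sum_cons, List.length_cons] at hsum hle
      rw [hlen] at hle
      rw [check_cons] at h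
      cases hb : Nat.ble (Nat.succ (Nat.mul cap (Nat.succ (List.length ts)))) rem
      · rw [hb] at h
        have key : ∀ c : ℕ, x.size ≤ c →
            T c (fun s S' q' => check ts s (rem - s) S' q') t 0 S []
              (fun s S' q' => check ts s (rem - s) S' q') = true → False := by
          intro c hc hT
          have := T_sound t 0 S _ (fun s S' => check ts s (rem - s) S' [] = true)
            (fun s S h => h) (fun S h => h) hT x hx (by omega)
          simp only [Nat.zero_add] at this
          exact ih _ _ _ this xs hxs hd2 (by omega)
        cases hc : Nat.ble cap rem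
        · rw [hc] at h
          exact key rem (by omega) h
        · rw [hc] at h
          exact key cap hd1 h
      · have := Nat.le_of_ble_eq_true hb
        have e : Nat.mul cap (Nat.succ (List.length ts)) = cap * (ts.length + 1) := rfl
        rw [e] at this
        omega

end Pool.Agent.Work.MP_254e61_co.FC
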