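import Mathlib

set_option autoImplicit false

/-!
Finite data structures evaluated in the kernel.  They are defined with recursors for speed.
-/

namespace Pool.Agent.Work.MP_254e61_co.FC

/-- Tree of the possible positions of a branch.  `nil`: excluded by a bad word; `stop`: beyond the
depth limit; `node m q l r`: `m` = mask of the earlier positions in conflict (bits from 64 on),
`q` = bit of the position (from 64 on) plus a random number below `2^64`. -/
inductive Tr
  | nil
  | stop
  | node (m q : ℕ) (l r : Tr)

/-- Trie of the bad turn words; a leaf carries the coefficients of a common interior point. -/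
inductive Trie
  | fail
  | leaf (x y z : ℕ)
  | node (l r : Trie)

/-- View of the tree of positions from one side of a position. -/
inductive VT
  | nil
  | node (q : ℕ) (l r : VT)

/-- Pull back of a linear combination through one turn (`false` = `L`, `true` = `R`), times 3. -/
def pullTurn (d : Bool) (v : ℤ × ℤ × ℤ) : ℤ × ℤ × ℤ :=
  match v with
  | (x, y, z) => match d with
    | false => (3 * x + 2 * z, -(3 * z), 3 * y + 2 * z)
    | true => (-(3 * z), 3 * y + 2 * z, 3 * x + 2 * z)

/-- Pull back through a word, last turn first. -/
def pullAll : List Bool → ℤ × ℤ × ℤ → ℤ × ℤ × ℤ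
  | [], v => v
  | d :: w, v => pullAll w (pullTurn d v)

def finOK (v : ℤ × ℤ × ℤ) : Bool :=
  decide (v.2.2 < 0) && (decide (0 < 3 * v.1 + 2 * v.2.2) && decide (0 < 3 * v.2.1 + 2 * v.2.2))

/-- All leaves of the trie carry correct witnesses; `w` is the word read so far, last turn first. -/
def chkTrie : Trie → List Bool → Bool
  | Trie.fail, _ => true
  | Trie.leaf x y z, w => (Nat.blt 0 x && (Nat.blt 0 y && Nat.blt 0 z)) &&
      finOK (pullAll w (Int.ofNat x, Int.ofNat y, Int.ofNat z))
  | Trie.node l r, w => chkTrie l (false :: w) && chkTrie r (true :: w)

/-- The view of a branch from its entry side. -/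
noncomputable def tv : Tr → VT := Tr.rec VT.nil VT.nil (fun _ q _ _ ihl ihr => VT.node q ihl ihr)

/-- The union of the numbers `q` of the positions which the words of the trie reach. -/
noncomputable def walk : Trie → VT → ℕ :=
  Trie.rec (fun _ => 0) (fun _ _ _ v => VT.rec 0 (fun q _ _ _ _ => q) v)
    (fun _ _ ihl ihr v => VT.rec 0 (fun _ vl vr _ _ => Nat.lor (ihl vl) (ihr vr)) v)

/-- Verification of the tree of positions: `up` is the view through the entry side, `A` the
union of the numbers of the ancestors. -/
noncomputable def vchk (tt : Trie) : Tr → VT → ℕ → Bool :=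
  Tr.rec
    (fun up A => Bool.rec true false
      (Nat.beq (Nat.land (Nat.shiftRight (walk tt up) 64) (Nat.shiftRight A 64)) 0))
    (fun _ _ => true)
    (fun m q l r ihl ihr up A =>
      Bool.rec false
        (Bool.rec false
          (Bool.rec false (ihr (VT.node q up (tv l)) (Nat.lor A q))
            (ihl (VT.node q (tv r) up) (Nat.lor A q)))
          (Nat.beq (Nat.land m (walk tt up)) m))
        (Nat.beq (Nat.land m 0xffffffffffffffff) 0))

/-- Evaluates the number before it is passed on. -/
noncomputable def force (x : ℕ) (F : ℕ → Bool) : Bool := Nat.rec (F 0) (fun n _ => F (Nat.succ n)) x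

/-- Search through the subtrees of one branch.  `s` = number of positions used so far in this
branch, `S` = set of the positions used, `q` = decisions prescribed (for splitting the
computation), `k` = continuation, `kf` = continuation at the end of the branch. -/
noncomputable def T (cap : ℕ) (kf : ℕ → ℕ → List Bool → Bool) :
    Tr → ℕ → ℕ → List Bool → (ℕ → ℕ → List Bool → Bool) → Bool :=
  Tr.rec (fun s S q k => k s S q) (fun _ _ _ _ => false)
    (fun m p _ _ ihl ihr s S q k =>
      Bool.rec
        (k s S q)
        (List.rec
          (Bool.rec false
            (force (Nat.xor S p) fun S' => force (Nat.succ s) fun s' =>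
              Bool.rec (ihl s' S' q (fun s'' S'' q'' => ihr s'' S'' q'' k)) (kf s' S' q)
                (Nat.ble cap s'))
            (k s S q))
          (fun b q' _ => Bool.rec (k s S q')
            (force (Nat.xor S p) fun S' => force (Nat.succ s) fun s' =>
              Bool.rec (ihl s' S' q' (fun s'' S'' q'' => ihr s'' S'' q'' k)) (kf s' S' q')
                (Nat.ble cap s')) b)
          q)
        (Nat.beq (Nat.land S m) 0))

/-- Search through the subtrees of the branches of a list, with sizes at most `cap` for the first
one, not increasing, and with total `rem`: `true` if there is none. -/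
noncomputable def check : List Tr → ℕ → ℕ → ℕ → List Bool → Bool :=
  List.rec (fun _ rem _ _ => Nat.ble 1 rem)
    (fun t rest ih cap rem S q =>
      Bool.rec
        ((fun kf : ℕ → ℕ → List Bool → Bool =>
            Bool.rec (T rem kf t 0 S q kf) (T cap kf t 0 S q kf) (Nat.ble cap rem))
          (fun s S' q' => force (Nat.sub rem s) fun rem' => ih s rem' S' q'))
        true
        (Nat.ble (Nat.succ (Nat.mul cap (Nat.succ (List.length rest)))) rem))

def Tr.size : Tr → ℕ
  | .nil => 0
  | .stop => 0
  | .node _ _ l r => l.size + r.size + 1

/-- The positions are numbered in preorder from `n` on. -/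
def numOK : Tr → ℕ → Bool
  | .nil, _ => true
  | .stop, _ => true
  | .node _ q l r, n => Nat.beq (Nat.shiftRight q 64) (Nat.shiftLeft 1 n) &&
      (numOK l (n + 1) && numOK r (n + 1 + l.size))

end Pool.Agent.Work.MP_254e61_co.FC
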