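import Pool.Agent.Work.MP_254e61_co.FC.Geo

set_option autoImplicit false

/-!
Vectors are taken from the common vertex `p`.  A state `(a,b,c)` is an ordered triple of vectors
spanning a regular tetrahedron `{p, p+a, p+b, p+c}`; its `entry side` is the face through `a, b`.
`U` glues a regular tetrahedron on the entry side, `L` on the face through `a, c`, `R` on the face
through `c, b`.  The new apex is the mirror image `(2/3)(x+y) - z`.
-/

namespace Pool.Agent.Work.MP_254e61_co.FC

/-- Mirror image of `z` in the plane spanned by `x`, `y` (for a regular triple). -/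
noncomputable def rf (x y z : E3) : E3 := (2 / 3 : ℝ) • (x + y) - z

structure St where
  a : E3
  b : E3
  c : E3

noncomputable def St.U (s : St) : St := ⟨s.b, s.a, rf s.a s.b s.c⟩
noncomputable def St.L (s : St) : St := ⟨s.a, s.c, rf s.a s.c s.b⟩
noncomputable def St.R (s : St) : St := ⟨s.c, s.b, rf s.c s.b s.a⟩
def St.rot (s : St) : St := ⟨s.b, s.c, s.a⟩
def St.flip (s : St) : St := ⟨s.b, s.a, s.c⟩

/-- The four vertices. -/
noncomputable def St.tet (p : E3) (s : St) : Finset E3 := by
  classical exact {p, p + s.a, p + s.b, p + s.c}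

/-- Linear combination with real coefficients. -/
noncomputable def St.lc (s : St) (x y z : ℝ) : E3 := x • s.a + y • s.b + z • s.c

/-- The triple is regular of edge length `e`. -/
def Reg (e : ℝ) (s : St) : Prop :=
  0 < e ∧ inner ℝ s.a s.a = e ^ 2 ∧ inner ℝ s.b s.b = e ^ 2 ∧ inner ℝ s.c s.c = e ^ 2 ∧
    inner ℝ s.a s.b = e ^ 2 / 2 ∧ inner ℝ s.a s.c = e ^ 2 / 2 ∧ inner ℝ s.b s.c = e ^ 2 / 2

/-- Binary trees: shapes of clusters. -/
inductive Bt
  | nil
  | node (l r : Bt)

def Bt.size : Bt → ℕ
  | .nil => 0
  | .node l r => l.size + r.size + 1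

/-- Mirror image of a shape. -/
def Bt.mir : Bt → Bt
  | .nil => .nil
  | .node l r => .node r.mir l.mir

/-- The list of the tetrahedra of a shape placed at the state `s`. -/
noncomputable def tets (p : E3) : St → Bt → List (Finset E3)
  | _, .nil => []
  | s, .node l r => s.tet p :: (tets p s.L l ++ tets p s.R r)

/-- A rooted shape with its three branches (across the entry side, the `L` side and the `R` side). -/
noncomputable def rt (p : E3) (s : St) (u l r : Bt) : List (Finset E3) :=
  s.tet p :: (tets p s.U u ++ tets p s.L l ++ tets p s.R r)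

end Pool.Agent.Work.MP_254e61_co.FC
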