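import Pool.Agent.Work.MP_254e61_co.FC.Defs

set_option autoImplicit false

/-!
The example of twenty tetrahedra, with integer coordinates.  Coordinates are with respect to the
basis `s.a, s.b, s.c` of the starting state; the vectors are multiplied by powers of 3.
-/

namespace Pool.Agent.Work.MP_254e61_co.FC

abbrev IV := ℤ × ℤ × ℤ

structure IS where
  a : IV
  b : IV
  c : IV

def irf (x y z : IV) : IV :=
  (2 * (x.1 + y.1) - 3 * z.1, 2 * (x.2.1 + y.2.1) - 3 * z.2.1, 2 * (x.2.2 + y.2.2) - 3 * z.2.2)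

def i3 (x : IV) : IV := (3 * x.1, 3 * x.2.1, 3 * x.2.2)

def IS.U (s : IS) : IS := ⟨i3 s.b, i3 s.a, irf s.a s.b s.c⟩
def IS.L (s : IS) : IS := ⟨i3 s.a, i3 s.c, irf s.a s.c s.b⟩
def IS.R (s : IS) : IS := ⟨i3 s.c, i3 s.b, irf s.c s.b s.a⟩

def itets : IS → Bt → List IS
  | _, .nil => []
  | s, .node l r => s :: (itets s.L l ++ itets s.R r)

def irt (s : IS) (u l r : Bt) : List IS := s :: (itets s.U u ++ itets s.L l ++ itets s.R r)

def I0 : IS := ⟨(1, 0, 0), (0, 1, 0), (0, 0, 1)⟩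

def idot (f x : IV) : ℤ := f.1 * x.1 + f.2.1 * x.2.1 + f.2.2 * x.2.2

/-- The functional `f` separates the two cones. -/
def sepOK (f : IV) (A B : IS) : Bool :=
  (decide (f.1 ≠ 0) || decide (f.2.1 ≠ 0) || decide (f.2.2 ≠ 0)) &&
  (decide (0 ≤ idot f A.a) && decide (0 ≤ idot f A.b) && decide (0 ≤ idot f A.c)) &&
  (decide (idot f B.a ≤ 0) && decide (idot f B.b ≤ 0) && decide (idot f B.c ≤ 0))

def sepRow (A : IS) : List IS → List IV → Bool
  | [], _ => true
  | _ :: _, [] => false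
  | B :: Bs, f :: fs => sepOK f A B && sepRow A Bs fs

def sepAll : List IS → List (List IV) → Bool
  | [], _ => true
  | _ :: _, [] => false
  | A :: As, fs :: fss => sepRow A As fs && sepAll As fss

/-- The state `σ` has the coordinates `A` with respect to `s`, up to a positive factor. -/
def Rep (s σ : St) (A : IS) : Prop :=
  ∃ κ : ℝ, 0 < κ ∧ σ.a = κ • s.lc A.a.1 A.a.2.1 A.a.2.2 ∧ σ.b = κ • s.lc A.b.1 A.b.2.1 A.b.2.2 ∧
    σ.c = κ • s.lc A.c.1 A.c.2.1 A.c.2.2

end Pool.Agent.Work.MP_254e61_co.FC
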