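import Pool.Agent.Work.MP_254e61_co.FC.Defs

set_option autoImplicit false

namespace Pool.Agent.Work.MP_254e61_co.FC

theorem St.ext' {s t : St} (h1 : s.a = t.a) (h2 : s.b = t.b) (h3 : s.c = t.c) : s = t := by
  cases s; cases t; simp_all

theorem rf_comm (x y z : E3) : rf x y z = rf y x z := by
  unfold rf; rw [add_comm]

theorem rf_rf (x y z : E3) : rf x y (rf x y z) = z := by
  unfold rf; simp

theorem UU (s : St) : s.U.U = s := by
  apply St.ext' <;> simp [St.U]
  rw [rf_comm s.b s.a, rf_rf]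

theorem ULL (s : St) : s.L.U.L = s.R := by
  apply St.ext' <;> simp [St.U, St.L, St.R, rf_rf]

theorem ULR (s : St) : s.L.U.R = s.U := by
  apply St.ext' <;> simp [St.U, St.L, St.R, rf_rf]
  rw [rf_comm]

theorem URL (s : St) : s.R.U.L = s.U := by
  apply St.ext' <;> simp [St.U, St.L, St.R, rf_rf]
  rw [rf_comm]

theorem URR (s : St) : s.R.U.R = s.L := by
  apply St.ext' <;> simp [St.U, St.L, St.R, rf_rf]

theorem mem_tet (p : E3) (s : St) (x : E3) :
    x ∈ s.tet p ↔ x = p ∨ x = p + s.a ∨ x = p + s.b ∨ x = p + s.c := by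
  simp [St.tet]

theorem tet_UL (p : E3) (s : St) : s.L.U.tet p = s.tet p := by
  ext x; simp only [mem_tet, St.U, St.L, rf_rf]; tauto

theorem tet_UR (p : E3) (s : St) : s.R.U.tet p = s.tet p := by
  ext x; simp only [mem_tet, St.U, St.R, rf_rf]; tauto

theorem rot_U (s : St) : s.rot.U = s.R := by
  apply St.ext' <;> simp [St.U, St.R, St.rot]
  rw [rf_comm]

theorem rot_L (s : St) : s.rot.L = s.U := by
  apply St.ext' <;> simp [St.U, St.L, St.rot]
  rw [rf_comm]

theorem rot_R (s : St) : s.rot.R = s.L := by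
  apply St.ext' <;> simp [St.L, St.R, St.rot]

theorem tet_rot (p : E3) (s : St) : s.rot.tet p = s.tet p := by
  ext x; simp only [mem_tet, St.rot]; tauto

theorem flip_U (s : St) : s.flip.U = s.U.flip := by
  apply St.ext' <;> simp [St.U, St.flip]
  rw [rf_comm]

theorem flip_L (s : St) : s.flip.L = s.R.flip := by
  apply St.ext' <;> simp [St.R, St.L, St.flip]
  rw [rf_comm]

theorem flip_R (s : St) : s.flip.R = s.L.flip := by
  apply St.ext' <;> simp [St.R, St.L, St.flip]
  rw [rf_comm]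

theorem tet_flip (p : E3) (s : St) : s.flip.tet p = s.tet p := by
  ext x; simp only [mem_tet, St.flip]; tauto

theorem Reg.rot {e : ℝ} {s : St} (h : Reg e s) : Reg e s.rot := by
  obtain ⟨h0, h1, h2, h3, h4, h5, h6⟩ := h
  refine ⟨h0, h2, h3, h1, h6, ?_, ?_⟩
  · rw [← h4]; exact real_inner_comm _ _
  · rw [← h5]; exact real_inner_comm _ _

theorem Reg.flip {e : ℝ} {s : St} (h : Reg e s) : Reg e s.flip := by
  obtain ⟨h0, h1, h2, h3, h4, h5, h6⟩ := h
  refine ⟨h0, h2, h1, h3, ?_, h6, h5⟩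
  rw [← h4]; exact real_inner_comm _ _

theorem Reg.U {e : ℝ} {s : St} (h : Reg e s) : Reg e s.U := by
  obtain ⟨h0, h1, h2, h3, h4, h5, h6⟩ := h
  have h4' : inner ℝ s.b s.a = e ^ 2 / 2 := by rw [← h4]; exact real_inner_comm _ _
  have h5' : inner ℝ s.c s.a = e ^ 2 / 2 := by rw [← h5]; exact real_inner_comm _ _
  have h6' : inner ℝ s.c s.b = e ^ 2 / 2 := by rw [← h6]; exact real_inner_comm _ _
  refine ⟨h0, h2, h1, ?_, h4', ?_, ?_⟩ <;> simp only [St.U, rf, inner_sub_left, inner_sub_right,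
    inner_smul_left, inner_smul_right, inner_add_left, inner_add_right, h1, h2, h3, h4, h5, h6, h4', h5', h6']
  · simp; ring
  · ring
  · ring

theorem Reg.R {e : ℝ} {s : St} (h : Reg e s) : Reg e s.R := by
  rw [← rot_U]; exact h.rot.U

theorem Reg.L {e : ℝ} {s : St} (h : Reg e s) : Reg e s.L := by
  rw [← rot_R]; exact h.rot.R

end Pool.Agent.Work.MP_254e61_co.FC
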