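import Pool.Agent.Work.MP_254e61_co.FC.WalkSound
import Pool.Agent.Work.MP_254e61_co.FC.Moves

set_option autoImplicit false

/-!
Module Fit.  A realised shape fits on the verified tree of positions.

Induction on `t`, general in `s x up A S`.  The case `x = nil` is trivial (`ok` is `True`,
`upd t .nil S = S`).  `Dj` is symmetric (`Disjoint.symm`).  Let `x = node y z`, so
`tets p s x = s.tet p :: (tets p s.L y ++ tets p s.R z)`.
* `t = nil`: `vchk` says that `Nat.land (walk >>> 64) (A >>> 64) ≠ 0`, so there is `i` with
  `(walk tt up).testBit (i+64)` and `A.testBit (i+64)` (`Nat.exists_testBit_of_ne_zero` or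
  `Nat.ne_zero_implies_bit_true`, `Nat.testBit_and`, `Nat.testBit_shiftRight`).  `walk_sound` at the
  state `s.U` with `A := s.tet p` (`hT s hs`, `hup`) gives `¬ Dj (s.tet p) (E (i+64))`, and `hA` gives
  `Dj (s.tet p) (E (i+64))`.
* `t = stop`: `ok` is `True`, `upd` is `S`.
* `t = node m q l r`: `vchk` gives `Nat.land m (2^64-1) = 0`, `Nat.land m (walk tt up) = m`, and `vchk`
  for `l`, `r`.  (a) `Nat.land S m = 0`: otherwise there is a common bit `j`; `j ≥ 64` by the first
  fact; it is a bit of `walk tt up` by the second; `walk_sound` contradicts `hS`.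
  (b) Put `S1 = Nat.xor S q`; a bit `j ≥ 64` of `S1` is a bit of `S` or of `q`, and in the second
  case `E j = s.tet p` by `hvc`.  Induction hypothesis for `l`, state `s.L` (`hs.L`), shape `y`,
  `up' = VT.node q (tv r) up`, `A' = Nat.lor A q`, `S1`: `VC p E s.L.U up'` unfolds to the bits of `q`
  (`tet_UL`), `VC p E s.L.U.L (tv r)` (`ULL`), `VC p E s.L.U.R up` (`ULR`).  The conditions on `A'`, `S1`:
  for a bit of `A` (or `S`) from `hA` (`hS`); for a bit of `q` from the pairwise condition
  (`List.pairwise_cons`, symmetry).
  (c) Put `S2 = upd l y S1`; by (b) a bit `j ≥ 64` of `S2` is a bit of `S1` or `E j ∈ tets p s.L y`.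
  Induction hypothesis for `r`, state `s.R`, `up' = VT.node q up (tv l)` (`tet_UR`, `URL`, `URR`), with
  `S2` (the pairwise condition on `tets p s.L y ++ tets p s.R z`, `List.pairwise_append`).
  The second assertion follows by combining.
`vchk`, `tv` unfold by `rfl`.
-/

namespace Pool.Agent.Work.MP_254e61_co.FC

private theorem Dj.symm' {A B : Finset E3} (h : Dj A B) : Dj B A := Disjoint.symm h

private theorem exists_bit {a b : ℕ} (h : Nat.land a b ≠ 0) :
    ∃ j, a.testBit j = true ∧ b.testBit j = true := by
  obtain ⟨j, hj⟩ := Nat.exists_testBit_of_ne_zero h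
  have hj' : (a &&& b).testBit j = true := hj
  rw [Nat.testBit_and, Bool.and_eq_true] at hj'
  exact ⟨j, hj'⟩

private theorem bit_of_land_eq {m w j : ℕ} (h : Nat.land m w = m) (hj : m.testBit j = true) :
    w.testBit j = true := by
  have h' : (m &&& w) = m := h
  rw [← h', Nat.testBit_and, Bool.and_eq_true] at hj
  exact hj.2

private theorem ge_of_low {m j : ℕ} (h : Nat.land m 0xffffffffffffffff = 0)
    (hj : m.testBit j = true) : 64 ≤ j := by
  by_contra hlt
  push Not at hlt
  have h' : (m &&& (2 ^ 64 - 1)) = 0 := h
  have h2 : (m &&& (2 ^ 64 - 1)).testBit j = true := by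
    rw [Nat.testBit_and, hj, Nat.testBit_two_pow_sub_one]
    simp [hlt]
  rw [h'] at h2
  simp at h2

private theorem bit_xor {a b j : ℕ} (h : (Nat.xor a b).testBit j = true) :
    a.testBit j = true ∨ b.testBit j = true := by
  have h' : (a ^^^ b).testBit j = true := h
  rw [Nat.testBit_xor] at h'
  cases ha : a.testBit j
  · rw [ha] at h'; right; simpa using h'
  · left; rfl

private theorem bit_or {a b j : ℕ} (h : (Nat.lor a b).testBit j = true) :
    a.testBit j = true ∨ b.testBit j = true := by
  have h' : (a ||| b).testBit j = true := h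
  rw [Nat.testBit_or, Bool.or_eq_true] at h'
  exact h'

theorem fit (e : ℝ) (p : E3) (E : ℕ → Finset E3) (tt : Trie)
    (hT : ∀ s : St, Reg e s → TS p (s.tet p) s.U tt)
    (t : Tr) (s : St) (x : Bt) (up : VT) (A S : ℕ)
    (hv : vchk tt t up A = true) (hs : Reg e s)
    (hup : VC p E s.U up) (hvc : VC p E s (tv t))
    (hA : ∀ j, 64 ≤ j → A.testBit j = true → ∀ B ∈ tets p s x, Dj B (E j))
    (hS : ∀ j, 64 ≤ j → S.testBit j = true → ∀ B ∈ tets p s x, Dj B (E j))
    (hpw : (tets p s x).Pairwise Dj) :
    ok t x S ∧ ∀ j, 64 ≤ j → (upd t x S).testBit j = true → S.testBit j = true ∨ E j ∈ tets p s x := by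
  induction t generalizing s x up A S with
  | nil =>
    cases x with
    | nil => exact ⟨trivial, fun j _ h => Or.inl h⟩
    | node y z =>
      exfalso
      have hv' : @Bool.rec (fun _ => Bool) true false
        (Nat.beq (Nat.land (Nat.shiftRight (walk tt up) 64) (Nat.shiftRight A 64)) 0) = true := hv
      cases hb : Nat.beq (Nat.land (Nat.shiftRight (walk tt up) 64) (Nat.shiftRight A 64)) 0
      · have hne : Nat.land (Nat.shiftRight (walk tt up) 64) (Nat.shiftRight A 64) ≠ 0 := by
          intro h0; rw [h0] at hb; exact absurd hb (by decide)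
        obtain ⟨i, h1, h2⟩ := exists_bit hne
        have h1' : (walk tt up >>> 64).testBit i = true := h1
        have h2' : (A >>> 64).testBit i = true := h2
        rw [Nat.testBit_shiftRight] at h1' h2'
        exact walk_sound p (s.tet p) E tt up s.U (hT s hs) hup (64 + i) (by omega) h1'
          (hA (64 + i) (by omega) h2' _ (by simp [tets]))
      · rw [hb] at hv'
        exact (Bool.false_ne_true hv').elim
  | stop =>
    cases x with
    | nil => exact ⟨trivial, fun j _ h => Or.inl h⟩
    | node y z => exact ⟨trivial, fun j _ h => Or.inl h⟩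
  | node m q l r ihl ihr =>
    cases x with
    | nil => exact ⟨trivial, fun j _ h => Or.inl h⟩
    | node y z =>
      have hv' : @Bool.rec (fun _ => Bool) false
        (@Bool.rec (fun _ => Bool) false
          (@Bool.rec (fun _ => Bool) false (vchk tt r (VT.node q up (tv l)) (Nat.lor A q))
            (vchk tt l (VT.node q (tv r) up) (Nat.lor A q)))
          (Nat.beq (Nat.land m (walk tt up)) m))
        (Nat.beq (Nat.land m 0xffffffffffffffff) 0) = true := hv
      have hlow : Nat.land m 0xffffffffffffffff = 0 := by
        cases hb : Nat.beq (Nat.land m 0xffffffffffffffff) 0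
        · rw [hb] at hv'; exact (Bool.false_ne_true hv').elim
        · exact Nat.eq_of_beq_eq_true hb
      have hbl : Nat.beq (Nat.land m 0xffffffffffffffff) 0 = true := by rw [hlow]; rfl
      rw [hbl] at hv'
      have hmw : Nat.land m (walk tt up) = m := by
        cases hb : Nat.beq (Nat.land m (walk tt up)) m
        · simp only [hb] at hv'; exact (Bool.false_ne_true hv').elim
        · exact Nat.eq_of_beq_eq_true hb
      have hbm : Nat.beq (Nat.land m (walk tt up)) m = true := by
        rw [hmw]; exact Nat.beq_refl m
      simp only [hbm] at hv'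
      have hl : vchk tt l (VT.node q (tv r) up) (Nat.lor A q) = true := by
        cases hb : vchk tt l (VT.node q (tv r) up) (Nat.lor A q)
        · rw [hb] at hv'; exact (Bool.false_ne_true hv').elim
        · rfl
      rw [hl] at hv'
      have hr : vchk tt r (VT.node q up (tv l)) (Nat.lor A q) = true := hv'
      have hvc' : (∀ j, 64 ≤ j → q.testBit j = true → E j = s.tet p) ∧
        VC p E s.L (tv l) ∧ VC p E s.R (tv r) := hvc
      obtain ⟨hq, hcl, hcr⟩ := hvc'
      simp only [tets, List.pairwise_cons, List.pairwise_append, List.mem_append] at hpw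
      obtain ⟨hp0, hp1, hp2, hp3⟩ := hpw
      simp only [tets, List.mem_cons, List.mem_append] at hA hS
      -- (a)
      have hSm : Nat.land S m = 0 := by
        by_contra hne
        obtain ⟨j, h1, h2⟩ := exists_bit hne
        have hj := ge_of_low hlow h2
        exact walk_sound p (s.tet p) E tt up s.U (hT s hs) hup j hj (bit_of_land_eq hmw h2)
          (hS j hj h1 _ (Or.inl rfl))
      -- (b)
      have hb1 := ihl s.L y (VT.node q (tv r) up) (Nat.lor A q) (Nat.xor S q) hl hs.L
        (by
          refine ⟨?_, ?_, ?_⟩
          · intro j hj h; rw [tet_UL]; exact hq j hj h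
          · rw [ULL]; exact hcr
          · rw [ULR]; exact hup)
        hcl
        (by
          intro j hj h B hB
          rcases bit_or h with h | h
          · exact hA j hj h B (Or.inr (Or.inl hB))
          · rw [hq j hj h]; exact Dj.symm' (hp0 B (Or.inl hB)))
        (by
          intro j hj h B hB
          rcases bit_xor h with h | h
          · exact hS j hj h B (Or.inr (Or.inl hB))
          · rw [hq j hj h]; exact Dj.symm' (hp0 B (Or.inl hB)))
        hp1
      have hb2 := ihr s.R z (VT.node q up (tv l)) (Nat.lor A q) (upd l y (Nat.xor S q)) hr hs.R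
        (by
          refine ⟨?_, ?_, ?_⟩
          · intro j hj h; rw [tet_UR]; exact hq j hj h
          · rw [URL]; exact hup
          · rw [URR]; exact hcl)
        hcr
        (by
          intro j hj h B hB
          rcases bit_or h with h | h
          · exact hA j hj h B (Or.inr (Or.inr hB))
          · rw [hq j hj h]; exact Dj.symm' (hp0 B (Or.inr hB)))
        (by
          intro j hj h B hB
          rcases hb1.2 j hj h with h | h
          · rcases bit_xor h with h | h
            · exact hS j hj h B (Or.inr (Or.inr hB))
            · rw [hq j hj h]; exact Dj.symm' (hp0 B (Or.inr hB))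
          · exact Dj.symm' (hp3 _ h _ hB))
        hp2
      refine ⟨⟨hSm, hb1.1, hb2.1⟩, ?_⟩
      intro j hj h
      have h' : (upd r z (upd l y (Nat.xor S q))).testBit j = true := h
      simp only [tets, List.mem_cons, List.mem_append]
      rcases hb2.2 j hj h' with h1 | h1
      · rcases hb1.2 j hj h1 with h2 | h2
        · rcases bit_xor h2 with h3 | h3
          · exact Or.inl h3
          · exact Or.inr (Or.inl (hq j hj h3))
        · exact Or.inr (Or.inr (Or.inl h2))
      · exact Or.inr (Or.inr (Or.inr h1))

end Pool.Agent.Work.MP_254e61_co.FC
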