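import Mathlib

set_option autoImplicit false

namespace Pool.Agent.Work.MP_254e61_co.FC

/-- Euclidean space of dimension three. -/
abbrev E3 := EuclideanSpace ℝ (Fin 3)

/-- `S` is the set of the four vertices of a regular tetrahedron of edge length `e`,
one of which is `p`. -/
def IsTet (e : ℝ) (p : E3) (S : Finset E3) : Prop :=
  S.card = 4 ∧ p ∈ S ∧ ∀ x ∈ S, ∀ y ∈ S, x ≠ y → dist x y = e

/-- The solid with the given vertices. -/
def hull (S : Finset E3) : Set E3 := convexHull ℝ (S : Set E3)

/-- The two solids have disjoint interiors. -/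
def Dj (A B : Finset E3) : Prop := Disjoint (interior (hull A)) (interior (hull B))

/-- Two vertex sets have a face (three vertices) in common. -/
def FaceAdj (A B : Finset E3) : Prop := ∃ G : Finset E3, G.card = 3 ∧ G ⊆ A ∧ G ⊆ B

/-- A family of regular tetrahedra of edge length `e` with the common vertex `p` and with
pairwise disjoint interiors. -/
def IsFamily (e : ℝ) (p : E3) (F : Finset (Finset E3)) : Prop :=
  (∀ S ∈ F, IsTet e p S) ∧ ∀ S ∈ F, ∀ T ∈ F, S ≠ T → Dj S T

/-- Any two members are joined by a chain of members in which consecutive ones have a common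
face. -/
def FaceConn (F : Finset (Finset E3)) : Prop :=
  ∀ S ∈ F, ∀ T ∈ F, Relation.ReflTransGen (fun A B => B ∈ F ∧ FaceAdj A B) S T

end Pool.Agent.Work.MP_254e61_co.FC
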