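import Pool.Agent.Work.MP_254e61_co.FC.Basis

set_option autoImplicit false

/-!
Module Glue.  The neighbours of a tetrahedron across its faces.

(0) `(s.tet p).card = 4` for `Reg e s` (not needed if one argues with `G` only).
(1) Let `G` be the common face.  `p ∈ G`: otherwise `insert p G` has four elements and is contained in both
sets, so both are equal to it (`Finset.eq_of_subset_of_card_le`; `s.tet p` has at most 4
elements, `T` has 4), contradiction to `T ≠ s.tet p`.  So `G = {p, g1, g2}` with `g1 ≠ g2` among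
`p + s.a, p + s.b, p + s.c`: `T` contains `p` and two of these three points, and not the third one
(otherwise `s.tet p ⊆ T`, equal by cardinality).
(2) Key lemma: let `u = s.a`, `v = s.b`, `w = s.c` (and the two rotations `s.rot`, `s.rot.rot` of `s`, which
are regular: `Reg.rot`).  If `q` satisfies `dist q p = dist q (p+u) = dist q (p+v) = e` then `q = p + w` or
`q = p + rf u v w`.  Proof: `d = q - p`; `⟪d,d⟫ = e²`; `⟪d - u, d - u⟫ = e²` gives `⟪d,u⟫ = e²/2`, same for `v`.
By `lc_surj` `d = x u + y v + z w`; inner products with `u`, `v`: `x + y/2 + z/2 = 1/2`, `x/2 + y + z/2 = 1/2`, so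
`x = y`, `3x + z = 1`; `⟪d,d⟫ = e²`: `x² + y² + z² + xy + xz + yz = 1`, i.e. `3x² + 2xz + z² = 1`, with
`x = (1-z)/3`: `z² = 1`.  `z = 1`: `d = w`; `z = -1`: `x = y = 2/3`, `d = rf u v w`.
(3) Case `p+s.a, p+s.b ∈ T`, `p + s.c ∉ T`: the fourth point `q` of `T` has distance `e` from `p`, `p+s.a`, `p+s.b` (it is
different from them), so `q = p + rf s.a s.b s.c` and `T = {p, p+s.a, p+s.b, q} = s.U.tet p`.  Case `s.a, s.c`:
`T = s.L.tet p`; case `s.b, s.c`: `T = s.R.tet p` (use the lemma for `s.rot`, `s.rot.rot`, or prove the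
lemma for a general regular state and use `rot_U`, `rot_R`, `tet_rot`).
-/

namespace Pool.Agent.Work.MP_254e61_co.FC

private theorem key {e : ℝ} {p : E3} {s : St} (hs : Reg e s) {q : E3} (h0 : dist q p = e)
    (h1 : dist q (p + s.a) = e) (h2 : dist q (p + s.b) = e) :
    q = p + s.c ∨ q = p + rf s.a s.b s.c := by
  obtain ⟨x, y, z, hd⟩ := lc_surj hs (q - p)
  obtain ⟨he, g1, g2, g3, g4, g5, g6⟩ := hs
  have g4' : inner ℝ s.b s.a = e ^ 2 / 2 := by rw [← g4]; exact real_inner_comm _ _
  have g5' : inner ℝ s.c s.a = e ^ 2 / 2 := by rw [← g5]; exact real_inner_comm _ _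
  have g6' : inner ℝ s.c s.b = e ^ 2 / 2 := by rw [← g6]; exact real_inner_comm _ _
  have hE : 0 < e ^ 2 := pow_pos he 2
  have n0 : inner ℝ (q - p) (q - p) = e ^ 2 := by
    rw [real_inner_self_eq_norm_sq, ← dist_eq_norm, h0]
  have n1 : inner ℝ (q - p - s.a) (q - p - s.a) = e ^ 2 := by
    rw [real_inner_self_eq_norm_sq, ← h1, dist_eq_norm]
    congr 2
    abel
  have n2 : inner ℝ (q - p - s.b) (q - p - s.b) = e ^ 2 := by
    rw [real_inner_self_eq_norm_sq, ← h2, dist_eq_norm]
    congr 2
    abel
  rw [hd] at n0 n1 n2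
  simp only [St.lc, inner_sub_left, inner_sub_right, inner_add_left, inner_add_right,
    real_inner_smul_left, real_inner_smul_right, g1, g2, g3, g4, g5, g6, g4', g5', g6'] at n0 n1 n2
  have k0 : x ^ 2 + y ^ 2 + z ^ 2 + x * y + x * z + y * z = 1 := by
    have : e ^ 2 * (x ^ 2 + y ^ 2 + z ^ 2 + x * y + x * z + y * z) = e ^ 2 * 1 := by
      linear_combination n0
    exact mul_left_cancel₀ hE.ne' this
  have k1 : x + y / 2 + z / 2 = 1 / 2 := by
    have : e ^ 2 * (x + y / 2 + z / 2) = e ^ 2 * (1 / 2) := by
      linear_combination (n0 - n1) / 2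
    exact mul_left_cancel₀ hE.ne' this
  have k2 : x / 2 + y + z / 2 = 1 / 2 := by
    have : e ^ 2 * (x / 2 + y + z / 2) = e ^ 2 * (1 / 2) := by
      linear_combination (n0 - n2) / 2
    exact mul_left_cancel₀ hE.ne' this
  have k3 : x = y := by linarith
  subst k3
  have k4 : x = (1 - z) / 3 := by linarith
  have k5 : (z - 1) * (z + 1) = 0 := by
    subst k4
    nlinarith [k0]
  have hq : q = p + (q - p) := by abel
  rcases mul_eq_zero.mp k5 with hz | hz
  · left
    have hz' : z = 1 := by linarith
    subst hz'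
    have hx : x = 0 := by rw [k4]; norm_num
    rw [hq, hd, hx]
    simp [St.lc]
  · right
    have hz' : z = -1 := by linarith
    subst hz'
    have hx : x = 2 / 3 := by rw [k4]; norm_num
    rw [hq, hd, hx]
    simp only [St.lc, rf]
    module

private theorem ne_pts {e : ℝ} {s : St} (hs : Reg e s) (p : E3) :
    p ≠ p + s.a ∧ p ≠ p + s.b ∧ p ≠ p + s.c ∧ p + s.a ≠ p + s.b ∧ p + s.a ≠ p + s.c ∧
      p + s.b ≠ p + s.c := by
  have ha : s.a = s.lc 1 0 0 := by simp [St.lc]
  have hb : s.b = s.lc 0 1 0 := by simp [St.lc]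
  have hc : s.c = s.lc 0 0 1 := by simp [St.lc]
  have h0 : (0 : E3) = s.lc 0 0 0 := by simp [St.lc]
  refine ⟨?_, ?_, ?_, ?_, ?_, ?_⟩
  · intro h
    have h' : s.lc 0 0 0 = s.lc 1 0 0 := by rw [← h0, ← ha]; exact left_eq_add.mp h |>.symm
    have := (lc_inj hs h').1
    norm_num at this
  · intro h
    have h' : s.lc 0 0 0 = s.lc 0 1 0 := by rw [← h0, ← hb]; exact left_eq_add.mp h |>.symm
    have := (lc_inj hs h').2.1
    norm_num at this
  · intro h
    have h' : s.lc 0 0 0 = s.lc 0 0 1 := by rw [← h0, ← hc]; exact left_eq_add.mp h |>.symm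
    have := (lc_inj hs h').2.2
    norm_num at this
  · intro h
    have h' : s.lc 1 0 0 = s.lc 0 1 0 := by rw [← ha, ← hb]; exact add_left_cancel h
    have := (lc_inj hs h').1
    norm_num at this
  · intro h
    have h' : s.lc 1 0 0 = s.lc 0 0 1 := by rw [← ha, ← hc]; exact add_left_cancel h
    have := (lc_inj hs h').1
    norm_num at this
  · intro h
    have h' : s.lc 0 1 0 = s.lc 0 0 1 := by rw [← hb, ← hc]; exact add_left_cancel h
    have := (lc_inj hs h').2.1
    norm_num at this

private theorem two {e : ℝ} {p : E3} {s : St} (hs : Reg e s) {T : Finset E3} (hT : IsTet e p T)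
    (ha : p + s.a ∈ T) (hb : p + s.b ∈ T) (hc : p + s.c ∉ T) : T = s.U.tet p := by
  classical
  obtain ⟨hcard, hp, hdist⟩ := hT
  obtain ⟨n1, n2, n3, n4, n5, n6⟩ := ne_pts hs p
  have hG : ({p, p + s.a, p + s.b} : Finset E3).card = 3 :=
    Finset.card_eq_three.mpr ⟨p, p + s.a, p + s.b, n1, n2, n4, rfl⟩
  obtain ⟨q, hqT, hqG⟩ : ∃ q ∈ T, q ∉ ({p, p + s.a, p + s.b} : Finset E3) :=
    Finset.exists_mem_notMem_of_card_lt_card (by omega)
  have hsub : insert q ({p, p + s.a, p + s.b} : Finset E3) ⊆ T := by
    intro x hx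
    simp only [Finset.mem_insert, Finset.mem_singleton] at hx
    rcases hx with rfl | rfl | rfl | rfl
    · exact hqT
    · exact hp
    · exact ha
    · exact hb
  have heq : insert q ({p, p + s.a, p + s.b} : Finset E3) = T := by
    apply Finset.eq_of_subset_of_card_le hsub
    rw [Finset.card_insert_of_notMem hqG, hG, hcard]
  simp only [Finset.mem_insert, Finset.mem_singleton, not_or] at hqG
  obtain ⟨q1, q2, q3⟩ := hqG
  rcases key hs (hdist q hqT p hp q1) (hdist q hqT _ ha q2) (hdist q hqT _ hb q3) with h | h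
  · rw [h] at hqT
    exact (hc hqT).elim
  · rw [← heq]
    ext x
    simp only [Finset.mem_insert, Finset.mem_singleton, mem_tet, St.U, h]
    tauto

theorem glue {e : ℝ} {p : E3} {s : St} (hs : Reg e s) {T : Finset E3} (hT : IsTet e p T)
    (hne : T ≠ s.tet p) (h : FaceAdj (s.tet p) T) :
    T = s.U.tet p ∨ T = s.L.tet p ∨ T = s.R.tet p := by
  classical
  obtain ⟨n1, n2, n3, n4, n5, n6⟩ := ne_pts hs p
  have hcard := hT.1
  obtain ⟨G, hG, hGs, hGT⟩ := h
  have hmem : ∀ x ∈ G, x = p ∨ x = p + s.a ∨ x = p + s.b ∨ x = p + s.c := fun x hx =>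
    (mem_tet p s x).mp (hGs hx)
  -- at most two elements: contradiction
  have small : ∀ r : E3, (∀ x ∈ G, x = p ∨ x = r) → False := by
    intro r hr
    have : G ⊆ {p, r} := by
      intro x hx
      simpa using hr x hx
    have h1 := Finset.card_le_card this
    have h2 : ({p, r} : Finset E3).card ≤ 2 := Finset.card_le_two
    omega
  by_cases ha : p + s.a ∈ T
  · by_cases hb : p + s.b ∈ T
    · by_cases hc : p + s.c ∈ T
      · exfalso
        apply hne
        have hcs : (s.tet p).card = 4 := by
          have : s.tet p = insert p (insert (p + s.a) {p + s.b, p + s.c}) := by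
            ext x; simp only [mem_tet, Finset.mem_insert, Finset.mem_singleton]
          rw [this, Finset.card_insert_of_notMem (by simp [n1, n2, n3]),
            Finset.card_insert_of_notMem (by simp [n4, n5]), Finset.card_pair n6]
        refine (Finset.eq_of_subset_of_card_le ?_ (by omega)).symm
        intro x hx
        rcases (mem_tet p s x).mp hx with rfl | rfl | rfl | rfl
        · exact hT.2.1
        · exact ha
        · exact hb
        · exact hc
      · exact Or.inl (two hs hT ha hb hc)
    · by_cases hc : p + s.c ∈ T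
      · refine Or.inr (Or.inl ?_)
        have := two hs.rot.rot hT (by exact hc) (by exact ha) (by exact hb)
        rw [this, rot_U, rot_R]
      · exfalso
        apply small (p + s.a)
        intro x hx
        rcases hmem x hx with rfl | rfl | rfl | rfl
        · exact Or.inl rfl
        · exact Or.inr rfl
        · exact (hb (hGT hx)).elim
        · exact (hc (hGT hx)).elim
  · by_cases hb : p + s.b ∈ T
    · by_cases hc : p + s.c ∈ T
      · refine Or.inr (Or.inr ?_)
        have := two hs.rot hT (by exact hb) (by exact hc) (by exact ha)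
        rw [this, rot_U]
      · exfalso
        apply small (p + s.b)
        intro x hx
        rcases hmem x hx with rfl | rfl | rfl | rfl
        · exact Or.inl rfl
        · exact (ha (hGT hx)).elim
        · exact Or.inr rfl
        · exact (hc (hGT hx)).elim
    · exfalso
      apply small (p + s.c)
      intro x hx
      rcases hmem x hx with rfl | rfl | rfl | rfl
      · exact Or.inl rfl
      · exact (ha (hGT hx)).elim
      · exact (hb (hGT hx)).elim
      · exact Or.inr rfl

end Pool.Agent.Work.MP_254e61_co.FC
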