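import Pool.Agent.Work.MP_254e61_co.FC.Glue

set_option autoImplicit false

/-!
Module Grow.  Adding one tetrahedron to a shape.

(1) For branches: if `A ∈ tets p s x`, `FaceAdj A B`, `IsTet e p B`, `B ∉ tets p s x`, `B ≠ s.U.tet p` then there
is `x'` with `(tets p s x').Perm (B :: tets p s x)`.  Induction on `x`, general in `s`.  `nil`: no `A`.
`node l r`: (a) `A = s.tet p`: `B ≠ s.tet p` as it is not in the list; by `glue`, `B` is `s.U.tet p` (excluded),
`s.L.tet p` or `s.R.tet p`.  If `B = s.L.tet p`: `l = nil` (otherwise `B` is the head of `tets p s.L l`, in the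
list), take `x' = node (node nil nil) r`; similarly for `R`.  (b) `A ∈ tets p s.L l`: induction hypothesis for `l`
at `s.L`: `B ≠ s.L.U.tet p = s.tet p` (`tet_UL`) as `B` is not in the list; `x' = node l' r`.  (c) `A ∈ tets p s.R r`:
the same with `tet_UR`.  Permutations: `List.Perm.cons`, `List.perm_middle`, `List.Perm.append`.
(2) `grow_rt` in the same way: `A = s.tet p`: `glue`; the branch across which `B` lies is `nil`.  `A` in the branch
`u` (state `s.U`): `B ≠ s.U.U.tet p = s.tet p` (`UU`); `A` in `l`: `tet_UL`; `A` in `r`: `tet_UR`.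
-/

namespace Pool.Agent.Work.MP_254e61_co.FC

private theorem grow_b {e : ℝ} {p : E3} {A B : Finset E3} (hadj : FaceAdj A B)
    (hB : IsTet e p B) (x : Bt) : ∀ {s : St} (_ : Reg e s) (_ : A ∈ tets p s x)
    (_ : B ∉ tets p s x) (_ : B ≠ s.U.tet p), ∃ x' : Bt, (tets p s x').Perm (B :: tets p s x) := by
  induction x with
  | nil => intro s hs hA; simp [tets] at hA
  | node l r ihl ihr =>
    intro s hs hA hBn hU
    simp only [tets, List.mem_cons, List.mem_append, not_or] at hA hBn
    obtain ⟨b0, bl, br⟩ := hBn
    rcases hA with hA | hA | hA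
    · rw [hA] at hadj
      rcases glue hs hB b0 hadj with h | h | h
      · exact absurd h hU
      · cases l with
        | nil =>
          refine ⟨.node (.node .nil .nil) r, ?_⟩
          simp only [tets, List.nil_append, List.cons_append, ← h]
          exact List.Perm.swap _ _ _
        | node y z => exact absurd (by rw [h]; simp [tets]) bl
      · cases r with
        | nil =>
          refine ⟨.node l (.node .nil .nil), ?_⟩
          simp only [tets, List.append_nil, ← h]
          exact ((List.perm_append_singleton B (tets p s.L l)).cons _).trans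
            (List.Perm.swap _ _ _)
        | node y z => exact absurd (by rw [h]; simp [tets]) br
    · obtain ⟨l', hl'⟩ := ihl hs.L hA bl (by rw [tet_UL]; exact b0)
      refine ⟨.node l' r, ?_⟩
      simp only [tets]
      exact ((hl'.append_right _).cons _).trans (List.Perm.swap _ _ _)
    · obtain ⟨r', hr'⟩ := ihr hs.R hA br (by rw [tet_UR]; exact b0)
      refine ⟨.node l r', ?_⟩
      simp only [tets]
      exact (((hr'.append_left _).trans List.perm_middle).cons _).trans (List.Perm.swap _ _ _)

theorem grow_rt {e : ℝ} {p : E3} {s : St} (hs : Reg e s) (u l r : Bt) {A B : Finset E3}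
    (hA : A ∈ rt p s u l r) (hadj : FaceAdj A B) (hB : IsTet e p B) (hBn : B ∉ rt p s u l r) :
    ∃ u' l' r' : Bt, (rt p s u' l' r').Perm (B :: rt p s u l r) := by
  simp only [rt, List.mem_cons, List.mem_append, not_or] at hA hBn
  obtain ⟨b0, ⟨bu, bl⟩, br⟩ := hBn
  rcases hA with hA | (hA | hA) | hA
  · rw [hA] at hadj
    rcases glue hs hB b0 hadj with h | h | h
    · cases u with
      | nil =>
        refine ⟨.node .nil .nil, l, r, ?_⟩
        simp only [rt, tets, List.nil_append, List.cons_append, ← h]
        exact List.Perm.swap _ _ _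
      | node y z => exact absurd (by rw [h]; simp [tets]) bu
    · cases l with
      | nil =>
        refine ⟨u, .node .nil .nil, r, ?_⟩
        simp only [rt, tets, List.append_nil, ← h]
        exact ((((List.perm_append_singleton B (tets p s.U u)).append_right _)).cons _).trans
          (List.Perm.swap _ _ _)
      | node y z => exact absurd (by rw [h]; simp [tets]) bl
    · cases r with
      | nil =>
        refine ⟨u, l, .node .nil .nil, ?_⟩
        simp only [rt, tets, List.append_nil, ← h]
        exact ((List.perm_append_singleton B (tets p s.U u ++ tets p s.L l)).cons _).trans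
          (List.Perm.swap _ _ _)
      | node y z => exact absurd (by rw [h]; simp [tets]) br
  · obtain ⟨u', hu'⟩ := grow_b hadj hB u hs.U hA bu (by rw [UU]; exact b0)
    refine ⟨u', l, r, ?_⟩
    simp only [rt]
    exact (((hu'.append_right _).append_right _).cons _).trans (List.Perm.swap _ _ _)
  · obtain ⟨l', hl'⟩ := grow_b hadj hB l hs.L hA bl (by rw [tet_UL]; exact b0)
    refine ⟨u, l', r, ?_⟩
    simp only [rt]
    exact (((((hl'.append_left _).trans List.perm_middle).append_right _)).cons _).trans
      (List.Perm.swap _ _ _)
  · obtain ⟨r', hr'⟩ := grow_b hadj hB r hs.R hA br (by rw [tet_UR]; exact b0)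
    refine ⟨u, l, r', ?_⟩
    simp only [rt]
    exact (((hr'.append_left _).trans List.perm_middle).cons _).trans (List.Perm.swap _ _ _)

end Pool.Agent.Work.MP_254e61_co.FC
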