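import Pool.Agent.Work.MP_254e61_co.FC.Basis

set_option autoImplicit false

/-!
Module Start.
(1) `exists_state`: `T.card = 4` and `p ∈ T`: `T = {p, x, y, z}` with distinct elements
(`Finset.card_eq_succ`, `Finset.card_eq_three` for `T.erase p`).  Put `a = x - p`, `b = y - p`, `c = z - p`:
`⟪a,a⟫ = dist x p ^ 2 = e²`, `⟪a - b, a - b⟫ = e²` gives `⟪a,b⟫ = e²/2`, and so on.
(2) `isTet_of_reg`: the four points `p, p+a, p+b, p+c` have mutual distances `e > 0`
(`dist (p+a) (p+b)^2 = ⟪a-b,a-b⟫ = e² + e² - e²`), so they are distinct and the card is 4.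
(3) `exists_reg`: for `e > 0` there is a regular state: with `f = e / √2` take `a = f • (1,1,0)`, `b = f • (1,0,1)`,
`c = f • (0,1,1)` (inner products `2f² = e²`, `f² = e²/2`).
(4) `faceAdj_L` and so on: a state and its neighbour have the face `{p, p+s.a, p+s.c}` in common
(for `U`: `{p, p+s.a, p+s.b}`; for `R`: `{p, p+s.b, p+s.c}`), a set of three distinct points.
-/

namespace Pool.Agent.Work.MP_254e61_co.FC

private theorem cross1 {E : ℝ} {a b : E3} (h1 : inner ℝ a a = E) (h2 : inner ℝ b b = E)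
    (h3 : inner ℝ (a - b) (a - b) = E) : inner ℝ a b = E / 2 := by
  rw [inner_sub_left, inner_sub_right, inner_sub_right, h1, h2, real_inner_comm a b] at h3
  linarith

private theorem cross2 {E : ℝ} {a b : E3} (h1 : inner ℝ a a = E) (h2 : inner ℝ b b = E)
    (h3 : inner ℝ a b = E / 2) : inner ℝ (a - b) (a - b) = E := by
  rw [inner_sub_left, inner_sub_right, inner_sub_right, h1, h2, real_inner_comm a b, h3]
  ring

theorem exists_state {e : ℝ} (he : 0 < e) {p : E3} {T : Finset E3} (hT : IsTet e p T) :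
    ∃ s : St, Reg e s ∧ s.tet p = T := by
  classical
  obtain ⟨hcard, hp, hdist⟩ := hT
  have h3 : (T.erase p).card = 3 := by rw [Finset.card_erase_of_mem hp, hcard]
  obtain ⟨x, y, z, hxy, hxz, hyz, hE⟩ := Finset.card_eq_three.mp h3
  have hTe : T = insert p {x, y, z} := by rw [← hE, Finset.insert_erase hp]
  have hx : x ∈ T.erase p := by rw [hE]; simp
  have hy : y ∈ T.erase p := by rw [hE]; simp
  have hz : z ∈ T.erase p := by rw [hE]; simp
  obtain ⟨px, hxT⟩ := Finset.mem_erase.mp hx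
  obtain ⟨py, hyT⟩ := Finset.mem_erase.mp hy
  obtain ⟨pz, hzT⟩ := Finset.mem_erase.mp hz
  have self : ∀ u ∈ T, u ≠ p → inner ℝ (u - p) (u - p) = e ^ 2 := by
    intro u hu hup
    rw [real_inner_self_eq_norm_sq, ← dist_eq_norm, hdist u hu p hp hup]
  have cross : ∀ u ∈ T, ∀ v ∈ T, u ≠ p → v ≠ p → u ≠ v →
      inner ℝ (u - p) (v - p) = e ^ 2 / 2 := by
    intro u hu v hv hup hvp huv
    have h1 := self u hu hup
    have h2 := self v hv hvp
    have h3 : inner ℝ (u - p - (v - p)) (u - p - (v - p)) = e ^ 2 := by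
      rw [sub_sub_sub_cancel_right, real_inner_self_eq_norm_sq, ← dist_eq_norm,
        hdist u hu v hv huv]
    exact cross1 h1 h2 h3
  refine ⟨⟨x - p, y - p, z - p⟩, ⟨he, self x hxT px, self y hyT py, self z hzT pz,
    cross x hxT y hyT px py hxy, cross x hxT z hzT px pz hxz, cross y hyT z hzT py pz hyz⟩, ?_⟩
  rw [hTe]
  ext u
  simp only [mem_tet, Finset.mem_insert, Finset.mem_singleton, add_sub_cancel]

private theorem ne_pts {e : ℝ} {s : St} (hs : Reg e s) (p : E3) :
    p ≠ p + s.a ∧ p ≠ p + s.b ∧ p ≠ p + s.c ∧ p + s.a ≠ p + s.b ∧ p + s.a ≠ p + s.c ∧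
      p + s.b ≠ p + s.c := by
  have ha : s.a = s.lc 1 0 0 := by simp [St.lc]
  have hb : s.b = s.lc 0 1 0 := by simp [St.lc]
  have hc : s.c = s.lc 0 0 1 := by simp [St.lc]
  have h0 : (0 : E3) = s.lc 0 0 0 := by simp [St.lc]
  refine ⟨?_, ?_, ?_, ?_, ?_, ?_⟩
  · intro h
    have h' : s.lc 0 0 0 = s.lc 1 0 0 := by rw [← h0, ← ha]; exact left_eq_add.mp h |>.symm
    have := (lc_inj hs h').1
    norm_num at this
  · intro h
    have h' : s.lc 0 0 0 = s.lc 0 1 0 := by rw [← h0, ← hb]; exact left_eq_add.mp h |>.symm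
    have := (lc_inj hs h').2.1
    norm_num at this
  · intro h
    have h' : s.lc 0 0 0 = s.lc 0 0 1 := by rw [← h0, ← hc]; exact left_eq_add.mp h |>.symm
    have := (lc_inj hs h').2.2
    norm_num at this
  · intro h
    have h' : s.lc 1 0 0 = s.lc 0 1 0 := by rw [← ha, ← hb]; exact add_left_cancel h
    have := (lc_inj hs h').1
    norm_num at this
  · intro h
    have h' : s.lc 1 0 0 = s.lc 0 0 1 := by rw [← ha, ← hc]; exact add_left_cancel h
    have := (lc_inj hs h').1
    norm_num at this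
  · intro h
    have h' : s.lc 0 1 0 = s.lc 0 0 1 := by rw [← hb, ← hc]; exact add_left_cancel h
    have := (lc_inj hs h').2.1
    norm_num at this

theorem isTet_of_reg {e : ℝ} {s : St} (hs : Reg e s) (p : E3) : IsTet e p (s.tet p) := by
  classical
  obtain ⟨n1, n2, n3, n4, n5, n6⟩ := ne_pts hs p
  obtain ⟨he, g1, g2, g3, g4, g5, g6⟩ := hs
  have hcs : (s.tet p).card = 4 := by
    have : s.tet p = insert p (insert (p + s.a) {p + s.b, p + s.c}) := by
      ext x; simp only [mem_tet, Finset.mem_insert, Finset.mem_singleton]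
    rw [this, Finset.card_insert_of_notMem (by simp [n1, n2, n3]),
      Finset.card_insert_of_notMem (by simp [n4, n5]), Finset.card_pair n6]
  have sq : ∀ {u : E3}, inner ℝ u u = e ^ 2 → ‖u‖ = e := by
    intro u hu
    rw [real_inner_self_eq_norm_sq] at hu
    exact (sq_eq_sq₀ (norm_nonneg _) he.le).mp hu
  have d0 : ∀ {u : E3}, inner ℝ u u = e ^ 2 → dist (p + u) p = e := by
    intro u hu
    rw [dist_eq_norm, add_sub_cancel_left]
    exact sq hu
  have d1 : ∀ {u v : E3}, inner ℝ u u = e ^ 2 → inner ℝ v v = e ^ 2 →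
      inner ℝ u v = e ^ 2 / 2 → dist (p + u) (p + v) = e := by
    intro u v hu hv huv
    rw [dist_eq_norm, add_sub_add_left_eq_sub]
    exact sq (cross2 hu hv huv)
  refine ⟨hcs, (mem_tet p s p).mpr (Or.inl rfl), ?_⟩
  intro x hx y hy hxy
  rcases (mem_tet p s x).mp hx with rfl | rfl | rfl | rfl <;>
    rcases (mem_tet _ s y).mp hy with rfl | rfl | rfl | rfl
  · exact absurd rfl hxy
  · rw [dist_comm]; exact d0 g1
  · rw [dist_comm]; exact d0 g2
  · rw [dist_comm]; exact d0 g3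
  · exact d0 g1
  · exact absurd rfl hxy
  · exact d1 g1 g2 g4
  · exact d1 g1 g3 g5
  · exact d0 g2
  · rw [dist_comm]; exact d1 g1 g2 g4
  · exact absurd rfl hxy
  · exact d1 g2 g3 g6
  · exact d0 g3
  · rw [dist_comm]; exact d1 g1 g3 g5
  · rw [dist_comm]; exact d1 g2 g3 g6
  · exact absurd rfl hxy

theorem exists_reg {e : ℝ} (he : 0 < e) : ∃ s : St, Reg e s := by
  have h2 : (0 : ℝ) < Real.sqrt 2 := Real.sqrt_pos.mpr (by norm_num)
  have hf : (e / Real.sqrt 2) * (e / Real.sqrt 2) = e ^ 2 / 2 := by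
    rw [div_mul_div_comm, Real.mul_self_sqrt (by norm_num)]
    ring
  set f : ℝ := e / Real.sqrt 2 with hfd
  have hin : ∀ a b c a' b' c' : ℝ, inner ℝ (!₂[a, b, c] : E3) (!₂[a', b', c'] : E3) =
      a * a' + b * b' + c * c' := by
    intro a b c a' b' c'
    rw [PiLp.inner_apply, Fin.sum_univ_three]
    show a' * a + b' * b + c' * c = _
    ring
  refine ⟨⟨!₂[f, f, 0], !₂[f, 0, f], !₂[0, f, f]⟩, he, ?_, ?_, ?_, ?_, ?_, ?_⟩ <;>
    rw [hin] <;> linarith [hf]

private theorem faceAdj_ab {e : ℝ} {s : St} (hs : Reg e s) (p : E3) {T : Finset E3} (hp : p ∈ T)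
    (ha : p + s.a ∈ T) (hb : p + s.b ∈ T) : FaceAdj (s.tet p) T := by
  classical
  obtain ⟨n1, n2, n3, n4, n5, n6⟩ := ne_pts hs p
  refine ⟨{p, p + s.a, p + s.b}, Finset.card_eq_three.mpr ⟨_, _, _, n1, n2, n4, rfl⟩, ?_, ?_⟩
  · intro x hx
    simp only [Finset.mem_insert, Finset.mem_singleton] at hx
    rw [mem_tet]
    tauto
  · intro x hx
    simp only [Finset.mem_insert, Finset.mem_singleton] at hx
    rcases hx with rfl | rfl | rfl
    · exact hp
    · exact ha
    · exact hb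

theorem faceAdj_U {e : ℝ} {s : St} (hs : Reg e s) (p : E3) : FaceAdj (s.tet p) (s.U.tet p) := by
  apply faceAdj_ab hs <;> rw [mem_tet] <;> simp [St.U]

theorem faceAdj_R {e : ℝ} {s : St} (hs : Reg e s) (p : E3) : FaceAdj (s.tet p) (s.R.tet p) := by
  have := faceAdj_U hs.rot p
  rwa [tet_rot, rot_U] at this

theorem faceAdj_L {e : ℝ} {s : St} (hs : Reg e s) (p : E3) : FaceAdj (s.tet p) (s.L.tet p) := by
  have := faceAdj_R hs.rot p
  rwa [tet_rot, rot_R] at this

end Pool.Agent.Work.MP_254e61_co.FC
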