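import Pool.Agent.Work.MP_254e61_co.FC.Grow
import Pool.Agent.Work.MP_254e61_co.FC.Start

set_option autoImplicit false

/-!
Module GrowTo.  Induction on `n` from `1` to `F.card`.  `n = 1`: a member `S` of `F` (`F.card ≥ 1`), `exists_state`,
the shape `rt p s nil nil nil = [S]`.  Step `n → n + 1`, `n < F.card`: the list `Λ = rt p s u l r` is without
repetitions, of length `n`, with members in `F`, so there is `T0 ∈ F` not in `Λ` (otherwise
`F ⊆ Λ.toFinset`, whose card is at most `n`).  By `FaceConn` there is a chain from the head `s.tet p` to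
`T0`; lemma: if `Relation.ReflTransGen R S T`, `S ∈ Λ`, `T ∉ Λ`, then there are `A ∈ Λ`, `B ∉ Λ` with
`R A B` (induction on the chain, `Relation.ReflTransGen.head_induction_on` or by contradiction).
So `B ∈ F` and `FaceAdj A B`; `grow_rt`; the new list is a permutation of `B :: Λ`: `Nodup`, length `n + 1`,
members in `F`.
-/

namespace Pool.Agent.Work.MP_254e61_co.FC

private theorem leave {α : Type*} {R : α → α → Prop} {Λ : List α} {S T : α}
    (h : Relation.ReflTransGen R S T) (hS : S ∈ Λ) (hT : T ∉ Λ) :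
    ∃ A ∈ Λ, ∃ B, B ∉ Λ ∧ R A B := by
  induction h with
  | refl => exact absurd hS hT
  | tail h1 h2 ih =>
    rename_i b c
    by_cases hb : b ∈ Λ
    · exact ⟨b, hb, c, hT, h2⟩
    · exact ih hb

theorem grow_to {e : ℝ} (he : 0 < e) {p : E3} {F : Finset (Finset E3)}
    (hF : ∀ S ∈ F, IsTet e p S) (hc : FaceConn F) (n : ℕ) (h1 : 1 ≤ n) (hn : n ≤ F.card) :
    ∃ (s : St) (u l r : Bt), Reg e s ∧ (rt p s u l r).length = n ∧ (rt p s u l r).Nodup ∧
      ∀ B ∈ rt p s u l r, B ∈ F := by
  classical
  induction n, h1 using Nat.le_induction with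
  | base =>
    obtain ⟨S, hS⟩ := Finset.card_pos.mp (by omega : 0 < F.card)
    obtain ⟨s, hs, hst⟩ := exists_state he (hF S hS)
    refine ⟨s, .nil, .nil, .nil, hs, ?_, ?_, ?_⟩
    · simp [rt, tets]
    · simp [rt, tets]
    · intro B hB
      simp only [rt, tets, List.append_nil, List.mem_singleton] at hB
      rw [hB, hst]; exact hS
  | succ n hn1 ih =>
    obtain ⟨s, u, l, r, hs, hlen, hnd, hmem⟩ := ih (by omega)
    obtain ⟨T0, hT0, hT0n⟩ : ∃ T0 ∈ F, T0 ∉ rt p s u l r := by
      by_contra hcon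
      push Not at hcon
      have h1 : F ⊆ (rt p s u l r).toFinset := fun T hT => List.mem_toFinset.mpr (hcon T hT)
      have h2 := Finset.card_le_card h1
      have h3 := List.toFinset_card_le (rt p s u l r)
      omega
    have hroot : s.tet p ∈ rt p s u l r := by simp [rt]
    obtain ⟨A, hA, B, hBn, hBF, hadj⟩ := leave (hc _ (hmem _ hroot) _ hT0) hroot hT0n
    obtain ⟨u', l', r', hperm⟩ := grow_rt hs u l r hA hadj (hF B hBF) hBn
    refine ⟨s, u', l', r', hs, ?_, ?_, ?_⟩
    · rw [hperm.length_eq, List.length_cons, hlen]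
    · rw [hperm.nodup_iff, List.nodup_cons]
      exact ⟨hBn, hnd⟩
    · intro C hC
      rcases List.mem_cons.mp (hperm.mem_iff.mp hC) with rfl | h
      · exact hBF
      · exact hmem C h

end Pool.Agent.Work.MP_254e61_co.FC
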