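import Pool.Agent.Work.MP_254e61_co.FC.Data

set_option autoImplicit false
set_option maxRecDepth 100000

namespace Pool.Agent.Work.MP_254e61_co.FC

theorem kd_0 : check [t0, t1, t2] 10 20 0 [false] = true := by
  decide +kernel

theorem kd_100 : check [t0, t1, t2] 10 20 0 [true, false, false] = true := by
  decide +kernel

theorem kd_1010 : check [t0, t1, t2] 10 20 0 [true, false, true, false] = true := by
  decide +kernel

theorem kd_10110 : check [t0, t1, t2] 10 20 0 [true, false, true, true, false] = true := by
  decide +kernel

theorem kd_101110 : check [t0, t1, t2] 10 20 0 [true, false, true, true, true, false] = true := by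
  decide +kernel

theorem kd_1011110 : check [t0, t1, t2] 10 20 0 [true, false, true, true, true, true, false] = true := by
  decide +kernel

end Pool.Agent.Work.MP_254e61_co.FC
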