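import Pool.Agent.Work.MP_254e61_co.FC.PathSplit
import Pool.Agent.Work.MP_254e61_co.FC.KD0
import Pool.Agent.Work.MP_254e61_co.FC.KD1
import Pool.Agent.Work.MP_254e61_co.FC.KD2
import Pool.Agent.Work.MP_254e61_co.FC.KD3
import Pool.Agent.Work.MP_254e61_co.FC.KD4
import Pool.Agent.Work.MP_254e61_co.FC.KD5
import Pool.Agent.Work.MP_254e61_co.FC.KD6

set_option autoImplicit false

namespace Pool.Agent.Work.MP_254e61_co.FC

theorem k_dfs : check [t0, t1, t2] 10 20 0 [] = true := by
  have h_101111 : check [t0, t1, t2] 10 20 0 [true, false, true, true, true, true] = true :=
    check_split [t0, t1, t2] 10 20 0 [true, false, true, true, true, true] kd_1011110 kd_1011111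
  have h_10111 : check [t0, t1, t2] 10 20 0 [true, false, true, true, true] = true :=
    check_split [t0, t1, t2] 10 20 0 [true, false, true, true, true] kd_101110 h_101111
  have h_1011 : check [t0, t1, t2] 10 20 0 [true, false, true, true] = true :=
    check_split [t0, t1, t2] 10 20 0 [true, false, true, true] kd_10110 h_10111
  have h_101 : check [t0, t1, t2] 10 20 0 [true, false, true] = true :=
    check_split [t0, t1, t2] 10 20 0 [true, false, true] kd_1010 h_1011
  have h_10 : check [t0, t1, t2] 10 20 0 [true, false] = true :=
    check_split [t0, t1, t2] 10 20 0 [true, false] kd_100 h_101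
  have h_110110 : check [t0, t1, t2] 10 20 0 [true, true, false, true, true, false] = true :=
    check_split [t0, t1, t2] 10 20 0 [true, true, false, true, true, false] kd_1101100 kd_1101101
  have h_110111 : check [t0, t1, t2] 10 20 0 [true, true, false, true, true, true] = true :=
    check_split [t0, t1, t2] 10 20 0 [true, true, false, true, true, true] kd_1101110 kd_1101111
  have h_11011 : check [t0, t1, t2] 10 20 0 [true, true, false, true, true] = true :=
    check_split [t0, t1, t2] 10 20 0 [true, true, false, true, true] h_110110 h_110111
  have h_1101 : check [t0, t1, t2] 10 20 0 [true, true, false, true] = true :=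
    check_split [t0, t1, t2] 10 20 0 [true, true, false, true] kd_11010 h_11011
  have h_110 : check [t0, t1, t2] 10 20 0 [true, true, false] = true :=
    check_split [t0, t1, t2] 10 20 0 [true, true, false] kd_1100 h_1101
  have h_111001 : check [t0, t1, t2] 10 20 0 [true, true, true, false, false, true] = true :=
    check_split [t0, t1, t2] 10 20 0 [true, true, true, false, false, true] kd_1110010 kd_1110011
  have h_11100 : check [t0, t1, t2] 10 20 0 [true, true, true, false, false] = true :=
    check_split [t0, t1, t2] 10 20 0 [true, true, true, false, false] kd_111000 h_111001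
  have h_111010 : check [t0, t1, t2] 10 20 0 [true, true, true, false, true, false] = true :=
    check_split [t0, t1, t2] 10 20 0 [true, true, true, false, true, false] kd_1110100 kd_1110101
  have h_1110110 : check [t0, t1, t2] 10 20 0 [true, true, true, false, true, true, false] = true :=
    check_split [t0, t1, t2] 10 20 0 [true, true, true, false, true, true, false] kd_11101100 kd_11101101
  have h_111011 : check [t0, t1, t2] 10 20 0 [true, true, true, false, true, true] = true :=
    check_split [t0, t1, t2] 10 20 0 [true, true, true, false, true, true] h_1110110 kd_1110111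
  have h_11101 : check [t0, t1, t2] 10 20 0 [true, true, true, false, true] = true :=
    check_split [t0, t1, t2] 10 20 0 [true, true, true, false, true] h_111010 h_111011
  have h_1110 : check [t0, t1, t2] 10 20 0 [true, true, true, false] = true :=
    check_split [t0, t1, t2] 10 20 0 [true, true, true, false] h_11100 h_11101
  have h_111101 : check [t0, t1, t2] 10 20 0 [true, true, true, true, false, true] = true :=
    check_split [t0, t1, t2] 10 20 0 [true, true, true, true, false, true] kd_1111010 kd_1111011
  have h_11110 : check [t0, t1, t2] 10 20 0 [true, true, true, true, false] = true :=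
    check_split [t0, t1, t2] 10 20 0 [true, true, true, true, false] kd_111100 h_111101
  have h_111110 : check [t0, t1, t2] 10 20 0 [true, true, true, true, true, false] = true :=
    check_split [t0, t1, t2] 10 20 0 [true, true, true, true, true, false] kd_1111100 kd_1111101
  have h_11111 : check [t0, t1, t2] 10 20 0 [true, true, true, true, true] = true :=
    check_split [t0, t1, t2] 10 20 0 [true, true, true, true, true] h_111110 kd_111111
  have h_1111 : check [t0, t1, t2] 10 20 0 [true, true, true, true] = true :=
    check_split [t0, t1, t2] 10 20 0 [true, true, true, true] h_11110 h_11111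
  have h_111 : check [t0, t1, t2] 10 20 0 [true, true, true] = true :=
    check_split [t0, t1, t2] 10 20 0 [true, true, true] h_1110 h_1111
  have h_11 : check [t0, t1, t2] 10 20 0 [true, true] = true :=
    check_split [t0, t1, t2] 10 20 0 [true, true] h_110 h_111
  have h_1 : check [t0, t1, t2] 10 20 0 [true] = true :=
    check_split [t0, t1, t2] 10 20 0 [true] h_10 h_11
  have h_all : check [t0, t1, t2] 10 20 0 [] = true :=
    check_split [t0, t1, t2] 10 20 0 [] kd_0 h_1
  exact h_all

end Pool.Agent.Work.MP_254e61_co.FC
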