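import Pool.Agent.Work.MP_254e61_co.FC.Data

set_option autoImplicit false
set_option maxRecDepth 100000

namespace Pool.Agent.Work.MP_254e61_co.FC

theorem k_trie : chkTrie TRIE [] = true := by decide +kernel

theorem k_t0 : vchk TRIE t0 (VT.node (Nat.shiftLeft 1 64) (tv t1) (tv t2)) (Nat.shiftLeft 1 64)
    = true := by decide +kernel

theorem k_t1 : vchk TRIE t1 (VT.node (Nat.shiftLeft 1 64) (tv t2) (tv t0)) (Nat.shiftLeft 1 64)
    = true := by decide +kernel

theorem k_t2 : vchk TRIE t2 (VT.node (Nat.shiftLeft 1 64) (tv t0) (tv t1)) (Nat.shiftLeft 1 64)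
    = true := by decide +kernel

theorem k_n0 : numOK t0 1 = true := by decide +kernel

theorem k_n1 : numOK t1 (1 + t0.size) = true := by decide +kernel

theorem k_n2 : numOK t2 (1 + t0.size + t1.size) = true := by decide +kernel

end Pool.Agent.Work.MP_254e61_co.FC
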