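import Pool.Agent.Work.MP_254e61_co.FC.Sem
import Pool.Agent.Work.MP_254e61_co.FC.Moves

set_option autoImplicit false

/-!
Module Places.  Numbering of the positions.

(1) `(places p s t).length = t.size` by induction.
(2) Lemma: `numOK t n = true` and `∀ k (hk : k < (places p s t).length), E (64 + n + k) = (places p s t)[k]`
imply `VC p E s (tv t)`.  Induction on `t`.  node: `Nat.shiftRight q 64 = Nat.shiftLeft 1 n`, so for `j ≥ 64`
`q.testBit j = (q >>> 64).testBit (j - 64) = (1 <<< n).testBit (j-64)` is `true` only for `j = 64 + n`
(`Nat.testBit_shiftRight`, `Nat.testBit_shiftLeft` or `Nat.testBit_two_pow`), and `E (64+n+0) = s.tet p`.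
The left subtree starts at `n + 1`, its list at index `1`; the right one at `n + 1 + l.size`, its list at
index `1 + l.size` (`List.getElem_append_left/right`, `List.getElem_cons_succ`).
(3) `exists_E`: take `E j = (s.tet p :: (places p s.U t0 ++ places p s.L t1 ++ places p s.R t2)).getD (j - 64) ∅`.
-/

namespace Pool.Agent.Work.MP_254e61_co.FC

private theorem places_length (p : E3) (t : Tr) : ∀ s : St, (places p s t).length = t.size := by
  induction t with
  | nil => intro s; rfl
  | stop => intro s; rfl
  | node m q l r ihl ihr =>
    intro s
    simp only [places, Tr.size, List.length_cons, List.length_append, ihl, ihr]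

private theorem places_VC (p : E3) (E : ℕ → Finset E3) (t : Tr) : ∀ (s : St) (n : ℕ),
    numOK t n = true →
    (∀ (k : ℕ) (hk : k < (places p s t).length), E (64 + n + k) = (places p s t)[k]) →
    VC p E s (tv t) := by
  induction t with
  | nil => intro s n _ _; trivial
  | stop => intro s n _ _; trivial
  | node m q l r ihl ihr =>
    intro s n hn hE
    simp only [numOK, Bool.and_eq_true] at hn
    obtain ⟨hq, hl, hr⟩ := hn
    have hq' := Nat.eq_of_beq_eq_true hq
    have hL := places_length p l s.L
    have hR := places_length p r s.R
    refine ⟨?_, ?_, ?_⟩
    · intro j hj hb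
      have h1 : (q >>> 64).testBit (j - 64) = true := by
        rw [Nat.testBit_shiftRight]
        have : 64 + (j - 64) = j := by omega
        rw [this]; exact hb
      have h2 : (1 <<< n : ℕ).testBit (j - 64) = true := by
        have h3 : q >>> 64 = 1 <<< n := hq'
        rw [← h3]; exact h1
      rw [Nat.one_shiftLeft, Nat.testBit_two_pow] at h2
      have h4 : n = j - 64 := by simpa using h2
      have := hE 0 (by simp [places])
      simp only [places, List.getElem_cons_zero] at this
      rw [← this]
      congr 1
      omega
    · apply ihl s.L (n + 1) hl
      intro k hk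
      have := hE (k + 1) (by simp only [places, List.length_cons, List.length_append]; omega)
      simp only [places, List.getElem_cons_succ] at this
      rw [List.getElem_append_left hk] at this
      rw [← this]
      congr 1
      omega
    · apply ihr s.R (n + 1 + l.size) hr
      intro k hk
      have := hE (l.size + k + 1)
        (by simp only [places, List.length_cons, List.length_append]; omega)
      simp only [places, List.getElem_cons_succ] at this
      rw [List.getElem_append_right (by omega)] at this
      have e : l.size + k - (places p s.L l).length = k := by omega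
      simp only [e] at this
      rw [← this]
      congr 1
      omega

theorem exists_E (p : E3) (s : St) (t0 t1 t2 : Tr) (h0 : numOK t0 1 = true)
    (h1 : numOK t1 (1 + t0.size) = true) (h2 : numOK t2 (1 + t0.size + t1.size) = true) :
    ∃ E : ℕ → Finset E3, E 64 = s.tet p ∧ VC p E s.U (tv t0) ∧ VC p E s.L (tv t1) ∧
      VC p E s.R (tv t2) := by
  set Λ : List (Finset E3) := s.tet p :: (places p s.U t0 ++ places p s.L t1 ++ places p s.R t2)
    with hΛ
  have hL0 := places_length p t0 s.U
  have hL1 := places_length p t1 s.L
  have hL2 := places_length p t2 s.R
  have hget : ∀ (k : ℕ) (hk : k < Λ.length), Λ.getD (64 + k - 64) ∅ = Λ[k] := by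
    intro k hk
    have : 64 + k - 64 = k := by omega
    rw [this]
    exact List.getD_eq_getElem _ _ hk
  refine ⟨fun j => Λ.getD (j - 64) ∅, ?_, ?_, ?_, ?_⟩
  · show Λ.getD 0 ∅ = _
    rw [hΛ]
    rfl
  · apply places_VC p _ t0 s.U 1 h0
    intro k hk
    have hk' : 1 + k < Λ.length := by
      simp only [hΛ, List.length_cons, List.length_append]; omega
    have := hget (1 + k) hk'
    have e : 64 + 1 + k = 64 + (1 + k) := by omega
    show Λ.getD (64 + 1 + k - 64) ∅ = _
    rw [e, this]
    have e2 : 1 + k = k + 1 := by omega
    simp only [e2, hΛ, List.getElem_cons_succ]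
    rw [List.getElem_append_left (by simp only [List.length_append]; omega),
      List.getElem_append_left hk]
  · apply places_VC p _ t1 s.L (1 + t0.size) h1
    intro k hk
    have hk' : 1 + t0.size + k < Λ.length := by
      simp only [hΛ, List.length_cons, List.length_append]; omega
    have := hget (1 + t0.size + k) hk'
    have e : 64 + (1 + t0.size) + k = 64 + (1 + t0.size + k) := by omega
    show Λ.getD (64 + (1 + t0.size) + k - 64) ∅ = _
    rw [e, this]
    have e2 : 1 + t0.size + k = t0.size + k + 1 := by omega
    simp only [e2, hΛ, List.getElem_cons_succ]
    rw [List.getElem_append_left (by simp only [List.length_append]; omega),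
      List.getElem_append_right (by omega)]
    congr 1
    omega
  · apply places_VC p _ t2 s.R (1 + t0.size + t1.size) h2
    intro k hk
    have hk' : 1 + t0.size + t1.size + k < Λ.length := by
      simp only [hΛ, List.length_cons, List.length_append]; omega
    have := hget (1 + t0.size + t1.size + k) hk'
    have e : 64 + (1 + t0.size + t1.size) + k = 64 + (1 + t0.size + t1.size + k) := by omega
    show Λ.getD (64 + (1 + t0.size + t1.size) + k - 64) ∅ = _
    rw [e, this]
    have e2 : 1 + t0.size + t1.size + k = t0.size + t1.size + k + 1 := by omega
    simp only [e2, hΛ, List.getElem_cons_succ]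
    rw [List.getElem_append_right (by simp only [List.length_append]; omega)]
    congr 1
    simp only [List.length_append]
    omega

end Pool.Agent.Work.MP_254e61_co.FC
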