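import Pool.Agent.Work.MP_254e61_co.FC.Fit
import Pool.Agent.Work.MP_254e61_co.FC.CheckSound
import Pool.Agent.Work.MP_254e61_co.FC.Places

set_option autoImplicit false

/-!
Module NoShape.  Take `E` from `exists_E`.  `rt p s x y z = s.tet p :: (tets p s.U x ++ tets p s.L y ++
tets p s.R z)`; split the pairwise condition (`List.pairwise_cons`, `List.pairwise_append`).  Put
`c = Nat.shiftLeft 1 64 = 2^64`, whose only bit is `64`, and `E 64 = s.tet p`.
(1) `fit` for `t0`, state `s.U`, shape `x`, `up = VT.node c (tv t1) (tv t2)`, `A = c`, `S = 0`: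
`VC p E s.U.U up`: rewrite `UU`; bits: `E 64 = s.tet p`; `VC p E s.L (tv t1)`, `VC p E s.R (tv t2)`.
Result: `ok t0 x 0`, and the bits `j ≥ 64` of `S1 = upd t0 x 0` satisfy `E j ∈ tets p s.U x`.
(2) `fit` for `t1`, state `s.L`, shape `y`, `up = VT.node c (tv t2) (tv t0)`, `A = c`, `S = S1`: `VC p E s.L.U up`:
`tet_UL`, `ULL` (`s.R`, tree `t2`), `ULR` (`s.U`, tree `t0`).
(3) `fit` for `t2`, state `s.R`, shape `z`, `up = VT.node c (tv t0) (tv t1)`, `S = S2 = upd t1 y S1`: `tet_UR`, `URL`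
(`s.U`, tree `t0`), `URR` (`s.L`, tree `t1`).
(4) `check_sound [t0, t1, t2] 10 20 0 hd [x, y, z]`.
-/

namespace Pool.Agent.Work.MP_254e61_co.FC

theorem no_shape (e : ℝ) (p : E3) (tt : Trie) (t0 t1 t2 : Tr)
    (hT : ∀ s : St, Reg e s → TS p (s.tet p) s.U tt)
    (h0 : vchk tt t0 (VT.node (Nat.shiftLeft 1 64) (tv t1) (tv t2)) (Nat.shiftLeft 1 64) = true)
    (h1 : vchk tt t1 (VT.node (Nat.shiftLeft 1 64) (tv t2) (tv t0)) (Nat.shiftLeft 1 64) = true)
    (h2 : vchk tt t2 (VT.node (Nat.shiftLeft 1 64) (tv t0) (tv t1)) (Nat.shiftLeft 1 64) = true)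
    (n0 : numOK t0 1 = true) (n1 : numOK t1 (1 + t0.size) = true)
    (n2 : numOK t2 (1 + t0.size + t1.size) = true)
    (hd : check [t0, t1, t2] 10 20 0 [] = true)
    (s : St) (hs : Reg e s) (x y z : Bt) (hx : x.size ≤ 10) (hy : y.size ≤ x.size)
    (hz : z.size ≤ y.size) (hsum : x.size + y.size + z.size = 20)
    (hpw : (rt p s x y z).Pairwise Dj) : False := by
  obtain ⟨E, hE, c0, c1, c2⟩ := exists_E p s t0 t1 t2 n0 n1 n2
  have hbit : ∀ j, 64 ≤ j → (Nat.shiftLeft 1 64).testBit j = true → E j = s.tet p := by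
    intro j hj h
    have h' : (1 <<< 64 : ℕ).testBit j = true := h
    rw [Nat.one_shiftLeft, Nat.testBit_two_pow] at h'
    have : 64 = j := by simpa using h'
    rw [← this]; exact hE
  have h0b : ∀ j, 64 ≤ j → (0 : ℕ).testBit j = true → False := by
    intro j hj h; simp at h
  simp only [rt, List.pairwise_cons, List.pairwise_append, List.mem_append] at hpw
  obtain ⟨hr, ⟨px, py, pxy⟩, pz, pxyz⟩ := hpw
  have sy : ∀ {A B : Finset E3}, Dj A B → Dj B A := fun h => Disjoint.symm h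
  have f0 := fit e p E tt hT t0 s.U x (VT.node (Nat.shiftLeft 1 64) (tv t1) (tv t2))
    (Nat.shiftLeft 1 64) 0 h0 hs.U
    (by rw [UU]; exact ⟨hbit, c1, c2⟩) c0
    (by
      intro j hj h B hB
      rw [hbit j hj h]
      exact sy (hr B (Or.inl (Or.inl hB))))
    (by intro j hj h; exact (h0b j hj h).elim) px
  have b0 : ∀ j, 64 ≤ j → (upd t0 x 0).testBit j = true → E j ∈ tets p s.U x := by
    intro j hj h
    rcases f0.2 j hj h with h | h
    · exact (h0b j hj h).elim
    · exact h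
  have f1 := fit e p E tt hT t1 s.L y (VT.node (Nat.shiftLeft 1 64) (tv t2) (tv t0))
    (Nat.shiftLeft 1 64) (upd t0 x 0) h1 hs.L
    (by
      refine ⟨?_, ?_, ?_⟩
      · intro j hj h; rw [tet_UL]; exact hbit j hj h
      · rw [ULL]; exact c2
      · rw [ULR]; exact c0) c1
    (by
      intro j hj h B hB
      rw [hbit j hj h]
      exact sy (hr B (Or.inl (Or.inr hB))))
    (by
      intro j hj h B hB
      exact sy (pxy _ (b0 j hj h) B hB)) py
  have b1 : ∀ j, 64 ≤ j → (upd t1 y (upd t0 x 0)).testBit j = true →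
      E j ∈ tets p s.U x ∨ E j ∈ tets p s.L y := by
    intro j hj h
    rcases f1.2 j hj h with h | h
    · exact Or.inl (b0 j hj h)
    · exact Or.inr h
  have f2 := fit e p E tt hT t2 s.R z (VT.node (Nat.shiftLeft 1 64) (tv t0) (tv t1))
    (Nat.shiftLeft 1 64) (upd t1 y (upd t0 x 0)) h2 hs.R
    (by
      refine ⟨?_, ?_, ?_⟩
      · intro j hj h; rw [tet_UR]; exact hbit j hj h
      · rw [URL]; exact c0
      · rw [URR]; exact c1) c2
    (by
      intro j hj h B hB
      rw [hbit j hj h]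
      exact sy (hr B (Or.inr hB)))
    (by
      intro j hj h B hB
      exact sy (pxyz _ (b1 j hj h) B hB)) pz
  exact check_sound [t0, t1, t2] 10 20 0 hd [x, y, z] ⟨f0.1, f1.1, f2.1, trivial⟩
    ⟨hx, hy, hz, trivial⟩ (by simp only [List.map_cons, List.map_nil, List.sum_cons, List.sum_nil]; omega)

end Pool.Agent.Work.MP_254e61_co.FC
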