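import Pool.Agent.Work.MP_254e61_co.FC.IntHull

set_option autoImplicit false

/-!
Module OvCoef.  Choose `ε > 0` with `ε (x + y + z) < 1` and `ε (x' + y' + z') < 1`, for instance
`ε = 1 / (1 + x + y + z + x' + y' + z')`.  The point `p + ε • s.lc x y z = p + s.lc (εx) (εy) (εz)
= p + t.lc (εx') (εy') (εz')` is in both interiors (`mem_interior`).
-/

namespace Pool.Agent.Work.MP_254e61_co.FC

theorem ov_of_coef {e : ℝ} {s t : St} (hs : Reg e s) (ht : Reg e t) (p : E3)
    {x y z x' y' z' : ℝ} (hx : 0 < x) (hy : 0 < y) (hz : 0 < z)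
    (hx' : 0 < x') (hy' : 0 < y') (hz' : 0 < z') (h : s.lc x y z = t.lc x' y' z') :
    ¬ Dj (s.tet p) (t.tet p) := by
  intro hd
  have hpos : 0 < 1 + x + y + z + x' + y' + z' := by positivity
  set ε : ℝ := 1 / (1 + x + y + z + x' + y' + z') with hε
  have hε0 : 0 < ε := by positivity
  have e1 : ε * (1 + x + y + z + x' + y' + z') = 1 := by
    rw [hε]; field_simp
  have hlc : ∀ (r : St) (u v w : ℝ), r.lc (ε * u) (ε * v) (ε * w) = ε • r.lc u v w := by
    intro r u v w
    unfold St.lc
    module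
  have m1 := mem_interior hs p (x := ε * x) (y := ε * y) (z := ε * z) (by positivity)
    (by positivity) (by positivity) (by nlinarith [mul_pos hε0 hx', mul_pos hε0 hy', mul_pos hε0 hz'])
  have m2 := mem_interior ht p (x := ε * x') (y := ε * y') (z := ε * z') (by positivity)
    (by positivity) (by positivity) (by nlinarith [mul_pos hε0 hx, mul_pos hε0 hy, mul_pos hε0 hz])
  rw [hlc] at m1 m2
  rw [← h] at m2
  exact Set.disjoint_left.mp hd m1 m2

end Pool.Agent.Work.MP_254e61_co.FC
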