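import Pool.Agent.Work.MP_254e61_co.FC.Comb

set_option autoImplicit false

/-!
Module PathSplit.  Splitting of the computation `check` by prescribed decisions.

(1) Unfolding lemmas, all by `rfl`:
`T cap kf Tr.nil s S q k = k s S q`, `T cap kf Tr.stop s S q k = false`, and for a node
`T cap kf (Tr.node m p l r) s S q k` is the `Bool.rec` expression of the definition in which
`ihl`, `ihr` are `T cap kf l`, `T cap kf r`.  `force x F = F x` (cases on `x`).
(2) Lemma T_split: let `kf`, `k` be functions with the property
`(P k)`: for all `s S q`, `k s S (q ++ [false]) = true → k s S (q ++ [true]) = true → k s S q = true`.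
Then `T cap kf t s S (q ++ [false]) k = true → T cap kf t s S (q ++ [true]) k = true →
T cap kf t s S q k = true`, for all `s S q`, by induction on `t` (with `k` general).
nil: property of `k`.  stop: `false = true`.  node: cases on the Boolean `Nat.beq (Nat.land S m) 0`.
If it is `false`: property of `k`.  If it is `true`: write `I q` for the include expression
`Bool.rec (T l s' S' q (fun s'' S'' q'' => T r s'' S'' q'' k)) (kf s' S' q) (Nat.ble cap s')`,
`s' = s + 1`, `S' = Nat.xor S p`.  The hypothesis `I (q ++ [false])`, `I (q ++ [true])` implies `I q`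
(cases on `Nat.ble cap s'`; one case is the property of `kf`; the other is the induction
hypothesis for `l` with the continuation `fun s'' S'' q'' => T r s'' S'' q'' k`, whose property is
the induction hypothesis for `r`).  Now cases on `q`: `q = []`: the hypotheses are `k s S [] = true`
and `I [] = true`, and the goal is `Bool.rec false (I []) (k s S []) = true`.  `q = b :: q'`:
`(b :: q') ++ [c] = b :: (q' ++ [c])`; `b = false`: property of `k`; `b = true`: as above for `I`.
(3) `check_split` by induction on the list (cap, rem, S, q general): for `[]` both sides are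
`Nat.ble 1 rem`; for `t :: rest` cases on the two Booleans and `T_split` with
`kf = k = fun s S' q' => check rest s (rem - s) S' q'`, whose property is the induction hypothesis.
-/

namespace Pool.Agent.Work.MP_254e61_co.FC

private theorem force_eq (x : ℕ) (F : ℕ → Bool) : force x F = F x := by cases x <;> rfl

private noncomputable def Inc (cap : ℕ) (kf : ℕ → ℕ → List Bool → Bool) (l r : Tr) (p s S : ℕ)
    (k : ℕ → ℕ → List Bool → Bool) (q : List Bool) : Bool :=
  Bool.rec (T cap kf l (s + 1) (Nat.xor S p) q (fun s'' S'' q'' => T cap kf r s'' S'' q'' k))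
    (kf (s + 1) (Nat.xor S p) q) (Nat.ble cap (s + 1))

private def P (k : ℕ → ℕ → List Bool → Bool) : Prop :=
  ∀ s S q, k s S (q ++ [false]) = true → k s S (q ++ [true]) = true → k s S q = true

private theorem T_conf {cap : ℕ} {kf : ℕ → ℕ → List Bool → Bool} {l r : Tr} {m p s S : ℕ}
    {k : ℕ → ℕ → List Bool → Bool} (q : List Bool) (h : Nat.beq (Nat.land S m) 0 = false) :
    T cap kf (.node m p l r) s S q k = k s S q := by
  show @Bool.rec (fun _ => Bool) _ _ (Nat.beq (Nat.land S m) 0) = _
  rw [h]

private theorem T_nil {cap : ℕ} {kf : ℕ → ℕ → List Bool → Bool} {l r : Tr} {m p s S : ℕ}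
    {k : ℕ → ℕ → List Bool → Bool} (h : Nat.beq (Nat.land S m) 0 = true) :
    T cap kf (.node m p l r) s S [] k = (k s S [] && Inc cap kf l r p s S k []) := by
  show @Bool.rec (fun _ => Bool) _ _ (Nat.beq (Nat.land S m) 0) = _
  rw [h]
  show @Bool.rec (fun _ => Bool) false _ (k s S []) = _
  cases hk : k s S []
  · rfl
  · show force (Nat.xor S p) _ = _
    rw [force_eq, force_eq]
    rfl

private theorem T_false {cap : ℕ} {kf : ℕ → ℕ → List Bool → Bool} {l r : Tr} {m p s S : ℕ}
    {k : ℕ → ℕ → List Bool → Bool} (q : List Bool) (h : Nat.beq (Nat.land S m) 0 = true) :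
    T cap kf (.node m p l r) s S (false :: q) k = k s S q := by
  show @Bool.rec (fun _ => Bool) _ _ (Nat.beq (Nat.land S m) 0) = _
  rw [h]

private theorem T_true {cap : ℕ} {kf : ℕ → ℕ → List Bool → Bool} {l r : Tr} {m p s S : ℕ}
    {k : ℕ → ℕ → List Bool → Bool} (q : List Bool) (h : Nat.beq (Nat.land S m) 0 = true) :
    T cap kf (.node m p l r) s S (true :: q) k = Inc cap kf l r p s S k q := by
  show @Bool.rec (fun _ => Bool) _ _ (Nat.beq (Nat.land S m) 0) = _
  rw [h]
  show force (Nat.xor S p) _ = _
  rw [force_eq, force_eq]
  rfl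

private theorem Inc_split {cap : ℕ} {kf : ℕ → ℕ → List Bool → Bool} (hkf : P kf) {l r : Tr}
    (hl : ∀ (k : ℕ → ℕ → List Bool → Bool), P k → P (fun s S q => T cap kf l s S q k))
    (hr : ∀ (k : ℕ → ℕ → List Bool → Bool), P k → P (fun s S q => T cap kf r s S q k))
    {p s S : ℕ} {k : ℕ → ℕ → List Bool → Bool} (hk : P k) (q : List Bool)
    (h0 : Inc cap kf l r p s S k (q ++ [false]) = true)
    (h1 : Inc cap kf l r p s S k (q ++ [true]) = true) : Inc cap kf l r p s S k q = true := by
  unfold Inc at *
  cases hc : Nat.ble cap (s + 1)
  · rw [hc] at h0 h1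
    exact hl _ (hr k hk) _ _ _ h0 h1
  · rw [hc] at h0 h1
    exact hkf _ _ _ h0 h1

private theorem T_split {cap : ℕ} {kf : ℕ → ℕ → List Bool → Bool} (hkf : P kf) (t : Tr) :
    ∀ (k : ℕ → ℕ → List Bool → Bool), P k → P (fun s S q => T cap kf t s S q k) := by
  induction t with
  | nil => intro k hk; exact hk
  | stop => intro k hk s S q h0 h1; exact absurd h0 (by show ¬ (false = true); simp)
  | node m p l r ihl ihr =>
    intro k hk s S q h0 h1
    show T cap kf (.node m p l r) s S q k = true
    change T cap kf (.node m p l r) s S (q ++ [false]) k = true at h0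
    change T cap kf (.node m p l r) s S (q ++ [true]) k = true at h1
    cases hb : Nat.beq (Nat.land S m) 0
    · rw [T_conf _ hb] at *
      exact hk _ _ _ h0 h1
    · cases q with
      | nil =>
        simp only [List.nil_append] at h0 h1
        rw [T_false _ hb] at h0
        rw [T_true _ hb] at h1
        rw [T_nil hb, h0, h1]
        rfl
      | cons b q =>
        simp only [List.cons_append] at h0 h1
        cases b
        · rw [T_false _ hb] at *
          exact hk _ _ _ h0 h1
        · rw [T_true _ hb] at *
          exact Inc_split hkf ihl ihr hk q h0 h1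

private theorem check_cons (t : Tr) (ts : List Tr) (cap rem S : ℕ) (q : List Bool) :
    check (t :: ts) cap rem S q =
      Bool.rec
        (Bool.rec
          (T rem (fun s S' q' => check ts s (rem - s) S' q') t 0 S q
            (fun s S' q' => check ts s (rem - s) S' q'))
          (T cap (fun s S' q' => check ts s (rem - s) S' q') t 0 S q
            (fun s S' q' => check ts s (rem - s) S' q')) (Nat.ble cap rem)) true
        (Nat.ble (Nat.succ (Nat.mul cap (Nat.succ (List.length ts)))) rem) := by
  have hk : (fun (s S' : ℕ) (q' : List Bool) => force (Nat.sub rem s) fun rem' =>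
      check ts s rem' S' q') = (fun s S' q' => check ts s (rem - s) S' q') := by
    funext s S' q'
    rw [force_eq]
    rfl
  rw [← hk]
  rfl

theorem check_split (ts : List Tr) (cap rem S : ℕ) (q : List Bool)
    (h0 : check ts cap rem S (q ++ [false]) = true)
    (h1 : check ts cap rem S (q ++ [true]) = true) : check ts cap rem S q = true := by
  induction ts generalizing cap rem S q with
  | nil => exact h0
  | cons t ts ih =>
    have hP : P (fun s S' q' => check ts s (rem - s) S' q') := fun s S q h0 h1 => ih _ _ _ _ h0 h1
    rw [check_cons] at *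
    cases hb : Nat.ble (Nat.succ (Nat.mul cap (Nat.succ (List.length ts)))) rem
    · rw [hb] at h0 h1
      cases hc : Nat.ble cap rem
      · rw [hc] at h0 h1
        exact T_split hP t _ hP _ _ _ h0 h1
      · rw [hc] at h0 h1
        exact T_split hP t _ hP _ _ _ h0 h1
    · rfl

end Pool.Agent.Work.MP_254e61_co.FC
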