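import Pool.Agent.Work.MP_254e61_co.FC.Defs
import Pool.Agent.Work.MP_254e61_co.FC.Comb

set_option autoImplicit false

namespace Pool.Agent.Work.MP_254e61_co.FC

/-- Semantics of the trie: the tetrahedron reached at a leaf overlaps `A`. -/
def TS (p : E3) (A : Finset E3) : St → Trie → Prop
  | _, .fail => True
  | s, .leaf _ _ _ => ¬ Dj A (s.tet p)
  | s, .node l r => TS p A s.L l ∧ TS p A s.R r

/-- Semantics of views: `E j` is the tetrahedron of the position with bit `j`. -/
def VC (p : E3) (E : ℕ → Finset E3) : St → VT → Prop
  | _, .nil => True
  | s, .node q l r => (∀ j, 64 ≤ j → q.testBit j = true → E j = s.tet p) ∧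
      VC p E s.L l ∧ VC p E s.R r

/-- The set of positions used, after the shape has been placed on the tree of positions. -/
def upd : Tr → Bt → ℕ → ℕ
  | .node _ q l r, .node x y, S => upd r y (upd l x (Nat.xor S q))
  | .nil, _, S => S
  | .stop, _, S => S
  | .node _ _ _ _, .nil, S => S

/-- The shape fits on the tree of positions and meets no conflict. -/
def ok : Tr → Bt → ℕ → Prop
  | _, .nil, _ => True
  | .nil, .node _ _, _ => False
  | .stop, .node _ _, _ => True
  | .node m q l r, .node x y, S =>
      Nat.land S m = 0 ∧ ok l x (Nat.xor S q) ∧ ok r y (upd l x (Nat.xor S q))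

/-- The same for a list of branches. -/
def okL : List Tr → List Bt → ℕ → Prop
  | [], [], _ => True
  | t :: ts, x :: xs, S => ok t x S ∧ okL ts xs (upd t x S)
  | [], _ :: _, _ => False
  | _ :: _, [], _ => False

/-- The sizes do not increase and start with at most `cap`. -/
def dec : ℕ → List Bt → Prop
  | _, [] => True
  | cap, x :: xs => x.size ≤ cap ∧ dec x.size xs

/-- All positions of a tree of positions, in preorder. -/
noncomputable def places (p : E3) : St → Tr → List (Finset E3)
  | _, .nil => []
  | _, .stop => []
  | s, .node _ _ l r => s.tet p :: (places p s.L l ++ places p s.R r)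

/-- The result of a word, last turn first. -/
noncomputable def run : List Bool → St → St
  | [], s => s
  | false :: w, s => (run w s).L
  | true :: w, s => (run w s).R

end Pool.Agent.Work.MP_254e61_co.FC
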