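import Pool.Agent.Work.MP_254e61_co.FC.SepDj

set_option autoImplicit false

/-!
Module SepAll.
(1) `Rep s σ A → Rep s σ.U A.U`, same for `L`, `R`: factor `κ/3`: `κ x = (κ/3) (3x)` and
`(2/3)(κx + κy) - κz = (κ/3) (2(x+y) - 3z)` (casts, `module` or componentwise `ring`).
(2) For every shape `x` and `Rep s σ A` : `tets p σ x` and `itets A x` correspond:
`List.Forall₂ (fun T B => ∃ τ, T = τ.tet p ∧ Rep s τ B) (tets p σ x) (itets A x)` (induction, `Forall₂.cons`,
`List.rel_append` or `List.Forall₂.append`).  Same for `rt`, `irt`.  `Rep s s I0` with `κ = 1`.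
(3) For corresponding lists `Λ`, `Λ'`: `sepAll Λ' C = true → Λ.Pairwise Dj`, by induction, with a lemma for
`sepRow` and `sep_dj`.
-/

namespace Pool.Agent.Work.MP_254e61_co.FC

private theorem rf_lc (s : St) (κ : ℝ) (x y z : IV) :
    rf (κ • s.lc (x.1 : ℝ) (x.2.1 : ℝ) (x.2.2 : ℝ)) (κ • s.lc (y.1 : ℝ) (y.2.1 : ℝ) (y.2.2 : ℝ))
      (κ • s.lc (z.1 : ℝ) (z.2.1 : ℝ) (z.2.2 : ℝ)) =
      (κ / 3) • s.lc ((irf x y z).1 : ℝ) ((irf x y z).2.1 : ℝ) ((irf x y z).2.2 : ℝ) := by
  simp only [rf, irf, St.lc]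
  push_cast
  module

private theorem i3_lc (s : St) (κ : ℝ) (x : IV) :
    κ • s.lc (x.1 : ℝ) (x.2.1 : ℝ) (x.2.2 : ℝ) =
      (κ / 3) • s.lc ((i3 x).1 : ℝ) ((i3 x).2.1 : ℝ) ((i3 x).2.2 : ℝ) := by
  simp only [i3, St.lc]
  push_cast
  module

private theorem Rep.U {s σ : St} {A : IS} (h : Rep s σ A) : Rep s σ.U A.U := by
  obtain ⟨κ, hκ, ha, hb, hc⟩ := h
  refine ⟨κ / 3, by positivity, ?_, ?_, ?_⟩
  · show σ.b = _
    rw [hb]; exact i3_lc s κ A.b
  · show σ.a = _
    rw [ha]; exact i3_lc s κ A.a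
  · show rf σ.a σ.b σ.c = _
    rw [ha, hb, hc]; exact rf_lc s κ A.a A.b A.c

private theorem Rep.L {s σ : St} {A : IS} (h : Rep s σ A) : Rep s σ.L A.L := by
  obtain ⟨κ, hκ, ha, hb, hc⟩ := h
  refine ⟨κ / 3, by positivity, ?_, ?_, ?_⟩
  · show σ.a = _
    rw [ha]; exact i3_lc s κ A.a
  · show σ.c = _
    rw [hc]; exact i3_lc s κ A.c
  · show rf σ.a σ.c σ.b = _
    rw [ha, hb, hc]; exact rf_lc s κ A.a A.c A.b

private theorem Rep.R {s σ : St} {A : IS} (h : Rep s σ A) : Rep s σ.R A.R := by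
  obtain ⟨κ, hκ, ha, hb, hc⟩ := h
  refine ⟨κ / 3, by positivity, ?_, ?_, ?_⟩
  · show σ.c = _
    rw [hc]; exact i3_lc s κ A.c
  · show σ.b = _
    rw [hb]; exact i3_lc s κ A.b
  · show rf σ.c σ.b σ.a = _
    rw [ha, hb, hc]; exact rf_lc s κ A.c A.b A.a

private theorem rep_self (s : St) : Rep s s I0 := by
  refine ⟨1, one_pos, ?_, ?_, ?_⟩ <;> simp [I0, St.lc]

private def Co (p : E3) (s : St) (T : Finset E3) (B : IS) : Prop := ∃ τ : St, T = τ.tet p ∧ Rep s τ B

private theorem co_tets (p : E3) (s : St) (x : Bt) : ∀ {σ : St} {A : IS}, Rep s σ A →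
    List.Forall₂ (Co p s) (tets p σ x) (itets A x) := by
  induction x with
  | nil => intro σ A h; exact List.Forall₂.nil
  | node l r ihl ihr =>
    intro σ A h
    exact List.Forall₂.cons ⟨σ, rfl, h⟩ (List.rel_append (ihl h.L) (ihr h.R))

private theorem co_rt (p : E3) (s : St) (u l r : Bt) :
    List.Forall₂ (Co p s) (rt p s u l r) (irt I0 u l r) :=
  List.Forall₂.cons ⟨s, rfl, rep_self s⟩
    (List.rel_append (List.rel_append (co_tets p s u (rep_self s).U) (co_tets p s l (rep_self s).L))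
      (co_tets p s r (rep_self s).R))

private theorem row_sound {e : ℝ} {s : St} (hs : Reg e s) (p : E3) {T : Finset E3} {A : IS}
    (hT : Co p s T A) : ∀ {Λ : List (Finset E3)} {Λ' : List IS} (fs : List IV),
    List.Forall₂ (Co p s) Λ Λ' → sepRow A Λ' fs = true → ∀ B ∈ Λ, Dj T B := by
  intro Λ Λ' fs h
  induction h generalizing fs with
  | nil => intro _ B hB; simp at hB
  | cons hab h ih =>
    intro hrow B hB
    cases fs with
    | nil => simp [sepRow] at hrow
    | cons f fs =>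
      simp only [sepRow, Bool.and_eq_true] at hrow
      rcases List.mem_cons.mp hB with rfl | hB
      · obtain ⟨σ, h1, h2⟩ := hT
        obtain ⟨τ, h3, h4⟩ := hab
        rw [h1, h3]
        exact sep_dj hs p h2 h4 hrow.1
      · exact ih fs hrow.2 B hB

private theorem all_sound {e : ℝ} {s : St} (hs : Reg e s) (p : E3) :
    ∀ {Λ : List (Finset E3)} {Λ' : List IS} (C : List (List IV)),
    List.Forall₂ (Co p s) Λ Λ' → sepAll Λ' C = true → Λ.Pairwise Dj := by
  intro Λ Λ' C h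
  induction h generalizing C with
  | nil => intro _; exact List.Pairwise.nil
  | cons hab h ih =>
    intro hall
    cases C with
    | nil => simp [sepAll] at hall
    | cons fs C =>
      simp only [sepAll, Bool.and_eq_true] at hall
      exact List.Pairwise.cons (row_sound hs p hab fs h hall.1) (ih C hall.2)

theorem sep_all {e : ℝ} {s : St} (hs : Reg e s) (p : E3) (u l r : Bt) (C : List (List IV))
    (h : sepAll (irt I0 u l r) C = true) : (rt p s u l r).Pairwise Dj := by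
  exact all_sound hs p C (co_rt p s u l r) h

end Pool.Agent.Work.MP_254e61_co.FC
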