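import Pool.Agent.Work.MP_254e61_co.FC.ExDefs
import Pool.Agent.Work.MP_254e61_co.FC.Basis

set_option autoImplicit false

/-!
Module SepDj.  A separating functional.

Let `φ : E3 →L[ℝ] ℝ` be the linear functional with `φ (s.lc x y z) = f.1 x + f.2.1 y + f.2.2 z` (coordinates in the
basis of `lin_indep`; `LinearMap.toContinuousLinearMap`).  It is not zero.  By `Rep` and `sepOK`, `φ ≥ 0` on
`σ.a, σ.b, σ.c` and `φ ≤ 0` on `τ.a, τ.b, τ.c`.  So the hull of `σ.tet p` lies in the closed half space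
`{x | 0 ≤ φ (x - p)}` (`convexHull_min`, convex; `p` itself gives `0`), the one of `τ.tet p` in
`{x | φ (x - p) ≤ 0}`.  If `x` is in both interiors, then `φ (x - p) = 0` and for a vector `v` with `φ v > 0` and
small `ε > 0` the point `x - ε v` is in the first set, so `φ (x - p) - ε φ v ≥ 0`, contradiction.
-/

namespace Pool.Agent.Work.MP_254e61_co.FC

private theorem exists_phi {e : ℝ} {s : St} (hs : Reg e s) (u v w : ℝ) :
    ∃ φ : E3 →ₗ[ℝ] ℝ, ∀ x y z : ℝ, φ (s.lc x y z) = u * x + v * y + w * z := by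
  have hcard : Fintype.card (Fin 3) = Module.finrank ℝ E3 := by simp
  let B := basisOfLinearIndependentOfCardEqFinrank (lin_indep hs) hcard
  have hB : ∀ i, B i = ![s.a, s.b, s.c] i := fun i => by simp [B]
  have hB0 : B 0 = s.a := by rw [hB]; rfl
  have hB1 : B 1 = s.b := by rw [hB]; rfl
  have hB2 : B 2 = s.c := by rw [hB]; rfl
  refine ⟨B.constr ℝ (![u, v, w] : Fin 3 → ℝ), ?_⟩
  intro x y z
  have h0 : B.constr ℝ (![u, v, w] : Fin 3 → ℝ) s.a = u := by
    rw [← hB0, Module.Basis.constr_basis]; rfl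
  have h1 : B.constr ℝ (![u, v, w] : Fin 3 → ℝ) s.b = v := by
    rw [← hB1, Module.Basis.constr_basis]; rfl
  have h2 : B.constr ℝ (![u, v, w] : Fin 3 → ℝ) s.c = w := by
    rw [← hB2, Module.Basis.constr_basis]; rfl
  unfold St.lc
  rw [map_add, map_add, map_smul, map_smul, map_smul, h0, h1, h2]
  simp only [smul_eq_mul]
  ring

private theorem side (p : E3) (φ : E3 →ₗ[ℝ] ℝ) {τ : St} (ha : 0 ≤ φ τ.a) (hb : 0 ≤ φ τ.b)
    (hc : 0 ≤ φ τ.c) : hull (τ.tet p) ⊆ {x | 0 ≤ φ (x - p)} := by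
  refine convexHull_min ?_ ?_
  · intro x hx
    rcases (mem_tet p τ x).mp hx with rfl | rfl | rfl | rfl
    · show 0 ≤ φ (x - x)
      simp
    · show 0 ≤ φ (p + τ.a - p)
      rw [add_sub_cancel_left]; exact ha
    · show 0 ≤ φ (p + τ.b - p)
      rw [add_sub_cancel_left]; exact hb
    · show 0 ≤ φ (p + τ.c - p)
      rw [add_sub_cancel_left]; exact hc
  · intro x hx y hy a b ha0 hb0 hab
    show 0 ≤ φ (a • x + b • y - p)
    have e : a • x + b • y - p = a • (x - p) + b • (y - p) := by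
      have : p = (a + b) • p := by rw [hab, one_smul]
      conv_lhs => rw [this]
      module
    rw [e, map_add, map_smul, map_smul]
    simp only [smul_eq_mul]
    have h1 : 0 ≤ φ (x - p) := hx
    have h2 : 0 ≤ φ (y - p) := hy
    positivity

private theorem no_common (p : E3) (φ : E3 →ₗ[ℝ] ℝ) {v : E3} (hv : 0 < φ v) {A B : Set E3}
    (hA : A ⊆ {x | 0 ≤ φ (x - p)}) (hB : B ⊆ {x | φ (x - p) ≤ 0}) :
    Disjoint (interior A) (interior B) := by
  rw [Set.disjoint_left]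
  intro x hxA hxB
  have h0 : φ (x - p) ≤ 0 := hB (interior_subset hxB)
  have hcont : Continuous (fun ε : ℝ => x - ε • v) := by fun_prop
  have hnhds : (fun ε : ℝ => x - ε • v) ⁻¹' (interior A) ∈ nhds (0 : ℝ) := by
    apply hcont.continuousAt.preimage_mem_nhds
    simpa using isOpen_interior.mem_nhds hxA
  obtain ⟨δ, hδ, hball⟩ := Metric.mem_nhds_iff.mp hnhds
  have hmem : δ / 2 ∈ Metric.ball (0 : ℝ) δ := by
    rw [Metric.mem_ball, Real.dist_eq, sub_zero, abs_of_pos (by positivity)]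
    linarith
  have h1 : 0 ≤ φ (x - (δ / 2) • v - p) := hA (interior_subset (hball hmem))
  have e : x - (δ / 2) • v - p = (x - p) - (δ / 2) • v := by abel
  rw [e, map_sub, map_smul, smul_eq_mul] at h1
  have : 0 < δ / 2 * φ v := by positivity
  linarith

theorem sep_dj {e : ℝ} {s : St} (hs : Reg e s) (p : E3) {σ τ : St} {A B : IS} (hA : Rep s σ A)
    (hB : Rep s τ B) {f : IV} (h : sepOK f A B = true) : Dj (σ.tet p) (τ.tet p) := by
  obtain ⟨φ, hφ⟩ := exists_phi hs (f.1 : ℝ) (f.2.1 : ℝ) (f.2.2 : ℝ)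
  simp only [sepOK, Bool.and_eq_true, Bool.or_eq_true, decide_eq_true_eq] at h
  obtain ⟨⟨hne, ⟨a1, a2⟩, a3⟩, ⟨b1, b2⟩, b3⟩ := h
  have hdot : ∀ x : IV, φ (s.lc (x.1 : ℝ) (x.2.1 : ℝ) (x.2.2 : ℝ)) = ((idot f x : ℤ) : ℝ) := by
    intro x
    rw [hφ]
    simp only [idot]
    push_cast
    ring
  obtain ⟨κ, hκ, ka, kb, kc⟩ := hA
  obtain ⟨μ, hμ, ma, mb, mc⟩ := hB
  have pA : ∀ {u : E3} {x : IV}, u = κ • s.lc (x.1 : ℝ) (x.2.1 : ℝ) (x.2.2 : ℝ) →
      0 ≤ idot f x → 0 ≤ φ u := by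
    intro u x hu hx
    rw [hu, map_smul, hdot, smul_eq_mul]
    have : (0 : ℝ) ≤ ((idot f x : ℤ) : ℝ) := by exact_mod_cast hx
    positivity
  have pB : ∀ {u : E3} {x : IV}, u = μ • s.lc (x.1 : ℝ) (x.2.1 : ℝ) (x.2.2 : ℝ) →
      idot f x ≤ 0 → 0 ≤ (-φ) u := by
    intro u x hu hx
    rw [LinearMap.neg_apply, hu, map_smul, hdot, smul_eq_mul]
    have : ((idot f x : ℤ) : ℝ) ≤ 0 := by exact_mod_cast hx
    nlinarith
  have hv : ∃ v : E3, 0 < φ v := by
    refine ⟨s.lc (f.1 : ℝ) (f.2.1 : ℝ) (f.2.2 : ℝ), ?_⟩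
    rw [hφ]
    rcases hne with (h | h) | h
    · have h' : (f.1 : ℝ) ≠ 0 := by exact_mod_cast h
      have h1 := mul_self_pos.mpr h'
      nlinarith [mul_self_nonneg (f.1 : ℝ), mul_self_nonneg (f.2.1 : ℝ),
        mul_self_nonneg (f.2.2 : ℝ)]
    · have h' : (f.2.1 : ℝ) ≠ 0 := by exact_mod_cast h
      have h1 := mul_self_pos.mpr h'
      nlinarith [mul_self_nonneg (f.1 : ℝ), mul_self_nonneg (f.2.1 : ℝ),
        mul_self_nonneg (f.2.2 : ℝ)]
    · have h' : (f.2.2 : ℝ) ≠ 0 := by exact_mod_cast h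
      have h1 := mul_self_pos.mpr h'
      nlinarith [mul_self_nonneg (f.1 : ℝ), mul_self_nonneg (f.2.1 : ℝ),
        mul_self_nonneg (f.2.2 : ℝ)]
  obtain ⟨v, hv⟩ := hv
  refine no_common p φ hv (side p φ (pA ka a1) (pA kb a2) (pA kc a3)) ?_
  intro x hx
  have := side p (-φ) (pB ma b1) (pB mb b2) (pB mc b3) hx
  have h' : 0 ≤ (-φ) (x - p) := this
  rw [LinearMap.neg_apply] at h'
  show φ (x - p) ≤ 0
  linarith

end Pool.Agent.Work.MP_254e61_co.FC
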