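import Pool.Agent.Work.MP_254e61_co.FC.OvCoef
import Pool.Agent.Work.MP_254e61_co.FC.Sem

set_option autoImplicit false

/-!
Module TrieSound.
(1) `Reg e s → Reg e (run w s)` by induction on `w` (`Reg.L`, `Reg.R`).
(2) One turn: for integers `v = (x, y, z)`, `v' = pullTurn d v` and `s' = if d then s.R else s.L`:
`s'.lc x y z = (1/3) • s.lc v'.1 v'.2.1 v'.2.2` (casts to `ℝ`; unfold `rf`, `module`).  For instance
`x a + y c + z ((2/3)(a + c) - b) = (1/3) ((3x+2z) a + (-3z) b + (3y+2z) c)`.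
(3) Hence `(run w s).lc x y z = (1/3)^(w.length) • s.lc X Y Z`, `(X,Y,Z) = pullAll w (x,y,z)`, by
induction on `w`, general in `(x,y,z)` (the head of `w` is the last turn).
(4) `s.lc X Y Z = s.U.lc (Y + 2Z/3) (X + 2Z/3) (-Z)` as `s.c = (2/3)(s.a + s.b) - rf s.a s.b s.c`.
(5) Claim: `chkTrie tt w = true → TS p (s.U.tet p) (run w s) tt`, induction on `tt`, general in `w`:
leaf: `ov_of_coef` (symmetric: `Dj` is symmetric, `Disjoint.symm`) for the states `run w s` with the
coefficients `x, y, z > 0` and `s.U` with `(1/3)^n (Y + 2Z/3)`, `(1/3)^n (X + 2Z/3)`, `(1/3)^n (-Z)`, positive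
by `finOK`; node: `run (false :: w) s = (run w s).L`, `run (true :: w) s = (run w s).R`.
(6) `trie_sound`: apply (5) with `w = []` to the state `s.U` and use `UU`.
-/

namespace Pool.Agent.Work.MP_254e61_co.FC

private theorem reg_run {e : ℝ} {s : St} (hs : Reg e s) : ∀ w : List Bool, Reg e (run w s)
  | [] => hs
  | false :: w => (reg_run hs w).L
  | true :: w => (reg_run hs w).R

private noncomputable def ilc (s : St) (v : ℤ × ℤ × ℤ) : E3 := s.lc (v.1 : ℝ) (v.2.1 : ℝ) (v.2.2 : ℝ)

private theorem turnL (s : St) (v : ℤ × ℤ × ℤ) :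
    ilc s.L v = (1 / 3 : ℝ) • ilc s (pullTurn false v) := by
  obtain ⟨x, y, z⟩ := v
  simp only [ilc, St.lc, pullTurn, St.L, rf]
  push_cast
  module

private theorem turnR (s : St) (v : ℤ × ℤ × ℤ) :
    ilc s.R v = (1 / 3 : ℝ) • ilc s (pullTurn true v) := by
  obtain ⟨x, y, z⟩ := v
  simp only [ilc, St.lc, pullTurn, St.R, rf]
  push_cast
  module

private theorem ilc_run (s : St) : ∀ (w : List Bool) (v : ℤ × ℤ × ℤ),
    ilc (run w s) v = ((1 / 3 : ℝ) ^ w.length) • ilc s (pullAll w v)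
  | [], v => by simp [run, pullAll]
  | false :: w, v => by
    show ilc (run w s).L v = _
    rw [turnL, ilc_run s w (pullTurn false v), smul_smul, List.length_cons, pow_succ', pullAll]
  | true :: w, v => by
    show ilc (run w s).R v = _
    rw [turnR, ilc_run s w (pullTurn true v), smul_smul, List.length_cons, pow_succ', pullAll]

private theorem lc_U (s : St) (x y z : ℝ) :
    s.lc x y z = s.U.lc (y + 2 * z / 3) (x + 2 * z / 3) (-z) := by
  simp only [St.lc, St.U, rf]
  module

private theorem lc_smul (s : St) (c x y z : ℝ) : c • s.lc x y z = s.lc (c * x) (c * y) (c * z) := by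
  simp only [St.lc]
  module

private theorem chk_sound {e : ℝ} (p : E3) {s : St} (hs : Reg e s) (tt : Trie) :
    ∀ w : List Bool, chkTrie tt w = true → TS p (s.U.tet p) (run w s) tt := by
  induction tt with
  | fail => intro w _; trivial
  | leaf x y z =>
    intro w h
    simp only [chkTrie, finOK, Bool.and_eq_true, decide_eq_true_eq] at h
    obtain ⟨⟨hx, hy, hz⟩, h1, h2, h3⟩ := h
    have hx' : 0 < x := Nat.le_of_ble_eq_true hx
    have hy' : 0 < y := Nat.le_of_ble_eq_true hy
    have hz' : 0 < z := Nat.le_of_ble_eq_true hz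
    show ¬ Dj (s.U.tet p) ((run w s).tet p)
    set V := pullAll w (Int.ofNat x, Int.ofNat y, Int.ofNat z) with hV
    have hrun := ilc_run s w (Int.ofNat x, Int.ofNat y, Int.ofNat z)
    rw [← hV] at hrun
    have hlen : (0 : ℝ) < (1 / 3 : ℝ) ^ w.length := by positivity
    have h1' : ((V.2.2 : ℤ) : ℝ) < 0 := by exact_mod_cast h1
    have h2' : (0 : ℝ) < 3 * (V.1 : ℝ) + 2 * (V.2.2 : ℝ) := by exact_mod_cast h2
    have h3' : (0 : ℝ) < 3 * (V.2.1 : ℝ) + 2 * (V.2.2 : ℝ) := by exact_mod_cast h3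
    have hov := ov_of_coef (reg_run hs w) hs.U p
      (x := (x : ℝ)) (y := (y : ℝ)) (z := (z : ℝ))
      (x' := (1 / 3 : ℝ) ^ w.length * ((V.2.1 : ℝ) + 2 * (V.2.2 : ℝ) / 3))
      (y' := (1 / 3 : ℝ) ^ w.length * ((V.1 : ℝ) + 2 * (V.2.2 : ℝ) / 3))
      (z' := (1 / 3 : ℝ) ^ w.length * (-(V.2.2 : ℝ)))
      (by exact_mod_cast hx') (by exact_mod_cast hy') (by exact_mod_cast hz')
      (mul_pos hlen (by linarith)) (mul_pos hlen (by linarith)) (mul_pos hlen (by linarith))
      (by
        rw [← lc_smul, ← lc_U]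
        simpa [ilc] using hrun)
    exact fun hd => hov (Disjoint.symm hd)
  | node l r ihl ihr =>
    intro w h
    simp only [chkTrie, Bool.and_eq_true] at h
    exact ⟨ihl (false :: w) h.1, ihr (true :: w) h.2⟩

theorem trie_sound (e : ℝ) (p : E3) (tt : Trie) (h : chkTrie tt [] = true) (s : St)
    (hs : Reg e s) : TS p (s.tet p) s.U tt := by
  have := chk_sound p hs.U tt [] h
  rw [UU] at this
  exact this

end Pool.Agent.Work.MP_254e61_co.FC
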