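import Pool.Agent.Work.MP_254e61_co.FC.NoShape
import Pool.Agent.Work.MP_254e61_co.FC.Centroid
import Pool.Agent.Work.MP_254e61_co.FC.GrowTo
import Pool.Agent.Work.MP_254e61_co.FC.TrieSound
import Pool.Agent.Work.MP_254e61_co.FC.KTree
import Pool.Agent.Work.MP_254e61_co.FC.KDAll

set_option autoImplicit false

namespace Pool.Agent.Work.MP_254e61_co.FC

theorem Dj.symm {A B : Finset E3} (h : Dj A B) : Dj B A := Disjoint.symm h

theorem upper (e : ℝ) (he : 0 < e) (p : E3) (F : Finset (Finset E3)) (hF : IsFamily e p F)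
    (hc : FaceConn F) : F.card ≤ 20 := by
  by_contra hcard
  push Not at hcard
  obtain ⟨s, u, l, r, hs, hlen, hnd, hmem⟩ := grow_to he hF.1 hc 21 (by norm_num) hcard
  rw [length_rt] at hlen
  obtain ⟨s', u', l', r', hs', hperm, h1, h2, h3, h4⟩ := centroid (p := p) hs u l r (by omega)
  have hnd' : (rt p s' u' l' r').Nodup := hperm.nodup_iff.mpr hnd
  have hpw : (rt p s' u' l' r').Pairwise Dj := by
    refine List.Pairwise.imp_of_mem ?_ hnd'
    intro a b ha hb hab
    exact hF.2 a (hmem a (hperm.mem_iff.mp ha)) b (hmem b (hperm.mem_iff.mp hb)) hab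
  exact no_shape e p TRIE t0 t1 t2 (fun s hs => trie_sound e p TRIE k_trie s hs) k_t0 k_t1 k_t2
    k_n0 k_n1 k_n2 k_dfs s' hs' u' l' r' h1 h2 h3 h4 hpw

end Pool.Agent.Work.MP_254e61_co.FC
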