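import Pool.Agent.Work.MP_254e61_co.FC.Sem

set_option autoImplicit false

/-!
Module WalkSound.  Induction on `tt` with `v`, `s` general; the reductions of `walk` are all `rfl`:
`walk .fail v = 0`, `walk (.leaf _ _ _) .nil = 0`, `walk (.leaf _ _ _) (.node q _ _) = q`,
`walk (.node l r) .nil = 0`, `walk (.node l r) (.node q vl vr) = Nat.lor (walk l vl) (walk r vr)`.
leaf: `E j = s.tet p` by `VC`, and `TS` is `¬ Dj A (s.tet p)`.  node: a bit of `Nat.lor` is a bit of
one of the two (`Nat.testBit_or`; `Nat.lor a b = a ||| b` by rfl).
-/

namespace Pool.Agent.Work.MP_254e61_co.FC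

theorem walk_sound (p : E3) (A : Finset E3) (E : ℕ → Finset E3) (tt : Trie) (v : VT) (s : St)
    (ht : TS p A s tt) (hv : VC p E s v) (j : ℕ) (hj : 64 ≤ j)
    (h : (walk tt v).testBit j = true) : ¬ Dj A (E j) := by
  induction tt generalizing v s with
  | fail =>
    have h' : (0 : ℕ).testBit j = true := h
    simp at h'
  | leaf x y z =>
    cases v with
    | nil =>
      have h' : (0 : ℕ).testBit j = true := h
      simp at h'
    | node q l r =>
      have h' : q.testBit j = true := h
      rw [hv.1 j hj h']
      exact ht
  | node l r ihl ihr =>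
    cases v with
    | nil =>
      have h' : (0 : ℕ).testBit j = true := h
      simp at h'
    | node q vl vr =>
      have h' : (walk l vl ||| walk r vr).testBit j = true := h
      rw [Nat.testBit_or, Bool.or_eq_true] at h'
      rcases h' with h' | h'
      · exact ihl vl s.L ht.1 hv.2.1 h'
      · exact ihr vr s.R ht.2 hv.2.2 h'

end Pool.Agent.Work.MP_254e61_co.FC
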